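import Pool.Agent.H77.KJ.DepCell
import Pool.Agent.H4.KJ.JCE

/-!
# Row QDE of LEMMA J

`qde_thm : Pool.KJ.QDEStmt`: the polynomials of the leaves with the depth property, and the count
at the second point.
-/

set_option autoImplicit false

namespace Pool.KS3

open Finset Real
open Pool.Agent.H49.Ent Pool.Agent.H32.Dense Pool.STK Pool.KAF Pool.KAL Pool.KST

/-- A leaf which is near an algebraic surface is so at a larger thickness. -/
lemma not_Bad_mono {n : ℕ} {G : MvPolynomial (Fin n) ℝ} {a : Fin n → ℝ} {s : ℝ} {D : ℕ}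
    {lm lm' : ℝ} (hs : 0 ≤ s) (h : lm ≤ lm') (hb : ¬ Bad G a s D lm) : ¬ Bad G a s D lm' := by
  intro h'
  refine hb ?_
  intro Q hQ hD
  refine lt_of_le_of_lt ?_ (h' Q hQ hD)
  refine mul_le_mul_of_nonneg_right h ?_
  refine (abs_nonneg _).trans (le_cs a s (gr G (MvPolynomial.pderiv none Q)) a ?_)
  intro i
  exact ⟨le_rfl, by linarith only [hs]⟩

/-- The logarithm of a linear expression is small. -/
lemma log_lin_small (E : ℕ) : ∃ m₀ : ℕ, ∀ e₀ : ℕ, m₀ ≤ e₀ →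
    Real.log ((3 + E) * e₀ + 2) ≤ e₀ := by
  obtain ⟨ρ, hρ⟩ : ∃ ρ : ℝ, ρ = 1 / (2 * (3 + E)) := ⟨_, rfl⟩
  have hE : (0 : ℝ) ≤ E := Nat.cast_nonneg E
  have hρ0 : 0 < ρ := by rw [hρ]; positivity
  obtain ⟨m₀, hm₀⟩ := exists_nat_gt (2 * (2 * ρ - Real.log ρ))
  refine ⟨m₀, fun e₀ he => ?_⟩
  have he' : (m₀ : ℝ) ≤ e₀ := by exact_mod_cast he
  have he0 : (0 : ℝ) ≤ e₀ := Nat.cast_nonneg e₀
  have hy : (0 : ℝ) < (3 + E) * e₀ + 2 := by positivity
  have h1 := Real.log_le_sub_one_of_pos (mul_pos hρ0 hy)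
  rw [Real.log_mul hρ0.ne' hy.ne'] at h1
  have h2 : ρ * ((3 + E) * e₀ + 2) = e₀ / 2 + 2 * ρ := by
    rw [hρ]
    field_simp
  rw [h2] at h1
  linarith only [hm₀, he', h1]

/-- **Row QDE.** -/
theorem qde_thm : Pool.KJ.QDEStmt := by
  classical
  intro n D u C₀ hn hC₀
  obtain ⟨C₁, hC₁, hdep⟩ := dep_thm n D C₀ hC₀
  have hC0 : (0 : ℝ) < C₀ := by linarith only [hC₀]
  have hD0 : (0 : ℝ) ≤ D := Nat.cast_nonneg D
  have hu0 : (0 : ℝ) ≤ u := Nat.cast_nonneg u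
  refine ⟨3 * C₁ + u + 14 * D + 4, by linarith only [hC₁], ?_⟩
  intro k₀ E M hE hM
  obtain ⟨C₂, hC₂, hdep⟩ := hdep k₀
  obtain ⟨C₃, hC₃, hcnt⟩ := cnt n D C₀ hC₀ k₀
  obtain ⟨ρ, hρ⟩ : ∃ ρ : ℝ, ρ = min 1 (1 / (2 * (C₂ + C₃))) := ⟨_, rfl⟩
  have hCC : 0 < C₂ + C₃ := by linarith only [hC₂, hC₃]
  have hρ0 : 0 < ρ := by
    rw [hρ]
    exact lt_min one_pos (by positivity)
  have hρ1 : ρ ≤ 1 := by rw [hρ]; exact min_le_left _ _
  have hρ2 : (C₂ + C₃) * ρ ≤ 1 / 2 := by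
    have h1 : ρ ≤ 1 / (2 * (C₂ + C₃)) := by rw [hρ]; exact min_le_right _ _
    have h2 := mul_le_mul_of_nonneg_left h1 hCC.le
    refine h2.trans (le_of_eq ?_)
    field_simp
  obtain ⟨η₁, κ₀, N₀, m₁, hη0, hηρ, hκ1, hRR⟩ := Pool.KJ.JC.RR_small1 n E hn ρ hρ0
  obtain ⟨m₂, hm₂⟩ := log_lin_small E
  obtain ⟨m₃, hm₃⟩ := exists_nat_gt (6 * C₀)
  refine ⟨η₁, κ₀, N₀, m₁ + m₂ + m₃ + 1, hη0, hκ1, ?_⟩
  intro m e₀ L Ω Λ Ξ Z _ p lam x T pos A B zx zl cz G γ δ ε e₁ e₃ e hm he₀ huL hLE he₁ he₃ hγ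
    hε hF hbad heT
  have hp := hF.step.leaf.isLaw
  have hp0 := hp.nonneg
  have hq0 : ∀ v, 0 ≤ dbl p lam v := dbl_nonneg hp0
  have m1 : Marg (dbl p lam) p (fun v => v.1) := dbl_fst hp0
  have hq : IsLaw (dbl p lam) := ⟨hq0, by rw [m1.sum]; exact hp.sum_one⟩
  have hme : m ≤ e₀ := by
    rw [he₀]
    exact Nat.le_mul_of_pos_left _ hM
  have he1 : m₁ + m₂ + m₃ + 1 ≤ e₀ := hm.trans hme
  have her : (1 : ℝ) ≤ e₀ := by exact_mod_cast (by omega : 1 ≤ e₀)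
  have hem₃ : (m₃ : ℝ) ≤ e₀ := by exact_mod_cast (by omega : m₃ ≤ e₀)
  have h2L : (0 : ℝ) < 2 ^ L := by positivity
  have h2u : (1 : ℝ) ≤ 2 ^ (u * e₀) := one_le_pow₀ (by norm_num)
  have hpow : (6 * C₀) * 2 ^ (u * e₀) ≤ (2 : ℝ) ^ L := by
    have h1 : (6 * C₀) ≤ (2 : ℝ) ^ e₀ := by
      have h2 : (e₀ : ℝ) ≤ 2 ^ e₀ := by exact_mod_cast Nat.lt_two_pow_self.le
      linarith only [hm₃, hem₃, h2]
    calc (6 * C₀) * 2 ^ (u * e₀) ≤ 2 ^ e₀ * 2 ^ (u * e₀) :=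
          mul_le_mul_of_nonneg_right h1 (by positivity)
      _ = (2 : ℝ) ^ ((u + 1) * e₀) := by rw [← pow_add]; congr 1; ring
      _ ≤ 2 ^ L := pow_le_pow_right₀ (by norm_num) huL
  obtain ⟨lm, hlm⟩ : ∃ lm : ℝ, lm = 2 ^ (u * e₀) / 2 ^ L := ⟨_, rfl⟩
  have hlm0 : 0 < lm := by rw [hlm]; positivity
  rw [← hlm] at hbad ⊢
  have hlog6 : Real.log (6 * C₀) ≤ e₀ := by
    have h1 := Real.log_le_sub_one_of_pos (by positivity : 0 < 6 * C₀)
    linarith only [hm₃, hem₃, h1]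
  have hlm1 : 6 * C₀ / 2 ^ L ≤ 6 * C₀ * lm := by
    rw [hlm, ← mul_div_assoc]
    refine div_le_div_of_nonneg_right ?_ h2L.le
    nlinarith only [h2u, hC₀]
  have hlm2 : 6 * C₀ * lm ≤ 1 := by
    rw [hlm, ← mul_div_assoc, div_le_one h2L]
    exact hpow
  have hbad' : ∀ ω, 0 < p ω → ¬ Bad (G (zx (x ω))) (fun _ => 0) 1 D (6 * C₀ * lm) :=
    fun ω hω => not_Bad_mono zero_le_one (by nlinarith only [hlm0, hC₀]) (hbad ω hω)
  have heT' : (((3 * e₀ : ℕ) : ℝ) + L) * Real.log 2 - CH p (fun ω => T (x ω)) lam ≤ η₁ * e₀ := by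
    push_cast at heT ⊢
    exact heT
  have hR := hRR e₀ L γ ε e₁ e₃ (by omega) hLE he₁ he₃ hγ hε
  obtain ⟨R, hR'⟩ : ∃ R, R = RR n L κ₀ γ N₀ ε e₁ e₃ := ⟨_, rfl⟩
  rw [← hR'] at hR
  obtain ⟨hR1, hR2, hR3⟩ := hF.le_RR
  rw [← hR'] at hR1 hR2 hR3
  have hγ' : n.factorial * (3 * C₀) ^ n ≤ δ ^ n * 2 ^ γ := by
    refine le_trans ?_ hF.hγ
    refine mul_le_mul_of_nonneg_left ?_ (by positivity)
    exact pow_le_pow_left₀ (by positivity) (by linarith only [hC₀]) _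
  have hηe : η₁ * e₀ ≤ ρ * e₀ := mul_le_mul_of_nonneg_right hηρ (by linarith only [hC₀, hm₃, hem₃])
  have hρe : ρ * e₀ ≤ e₀ := by nlinarith only [hρ1]
  have hCρ : (C₂ + C₃) * (ρ * e₀) ≤ 1 / 2 * e₀ := by
    have := mul_le_mul_of_nonneg_right hρ2 (by linarith only [hC₀, hm₃, hem₃] : (0 : ℝ) ≤ e₀)
    linarith only [this]
  have hρe0 : 0 ≤ ρ * e₀ := by positivity
  obtain ⟨Q, hQ, hdepth⟩ := hdep (3 * e₀) L Ω Λ Ξ Z p lam x T pos A B zx zl cz G κ₀ γ N₀ δ ε e₁ e₃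
    (η₁ * e₀) (6 * C₀ * lm) e hF hbad' hlm1 hlm2 heT'
  rw [← hR'] at hdepth
  refine ⟨Q, hQ, ?_, ?_⟩
  · have hc := hcnt (3 * e₀) L Ω Λ Ξ Z p lam x T pos A B zx zl cz G κ₀ γ δ ε e₁ (η₁ * e₀)
      (6 * C₀ * lm) e hF.step hF.reg hF.gr hbad' hlm1 hlm2 hF.hδ hF.he hF.hex hF.hnc hγ' hF.hκ
      hF.he₁ hF.he₁0 heT'
    refine hc.trans ?_
    have hl2 : Real.log 2 ≤ 1 := by
      have := Real.log_two_lt_d9
      linarith only [this]
    have hl0 : 0 ≤ Real.log 2 := Real.log_nonneg (by norm_num)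
    have h1 : Real.log (((3 * e₀ + L : ℕ) : ℝ) + 2) ≤ e₀ := by
      refine le_trans (Real.log_le_log (by positivity) ?_) (hm₂ e₀ (by omega))
      have h2 : (L : ℝ) ≤ E * e₀ := by exact_mod_cast hLE
      push_cast
      linarith only [h2]
    have h2 : Real.log (6 * C₀ * lm * 2 ^ L) ≤ e₀ + u * e₀ := by
      have e1 : 6 * C₀ * lm * 2 ^ L = 6 * C₀ * 2 ^ (u * e₀) := by
        rw [hlm]
        field_simp
      rw [e1, Real.log_mul (by positivity) (by positivity), Real.log_pow]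
      push_cast
      have h3 : (u : ℝ) * e₀ * Real.log 2 ≤ u * e₀ * 1 :=
        mul_le_mul_of_nonneg_left hl2 (by positivity)
      linarith only [hlog6, h3]
    have h3 : 4 * (D : ℝ) * (((3 * e₀ : ℕ) : ℝ) * Real.log 2) ≤ 12 * D * e₀ := by
      push_cast
      have h4 : 4 * (D : ℝ) * (3 * e₀ * Real.log 2) = 12 * D * e₀ * Real.log 2 := by ring
      rw [h4]
      have h5 : 12 * (D : ℝ) * e₀ * Real.log 2 ≤ 12 * D * e₀ * 1 :=
        mul_le_mul_of_nonneg_left hl2 (by positivity)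
      linarith only [h5]
    have h4 : 2 * (D : ℝ) * (η₁ * e₀) ≤ 2 * D * e₀ :=
      mul_le_mul_of_nonneg_left (hηe.trans hρe) (by positivity)
    have h5 : C₃ * (e₁ + L / κ₀ + γ + κ₀ + 1 + ε * L) ≤ 1 / 2 * e₀ := by
      have h6 : e₁ + L / κ₀ + γ + κ₀ + 1 + ε * L ≤ ρ * e₀ := by linarith only [hR, hR1]
      have h7 := mul_le_mul_of_nonneg_left h6 (by linarith only [hC₃] : (0 : ℝ) ≤ C₃)
      have h8 : 0 ≤ C₂ * (ρ * e₀) := by positivity
      linarith only [hCρ, h7, h8]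
    have h6 : 0 ≤ C₁ * (e₀ : ℝ) := by positivity
    have e2 : (3 * C₁ + u + 14 * D + 4) * (e₀ : ℝ) =
        3 * (C₁ * e₀) + u * e₀ + 14 * D * e₀ + 4 * e₀ := by ring
    rw [e2]
    linarith only [hC₀, hm₃, hem₃, h1, h2, h3, h4, h5, h6]
  · intro η hη
    by_cases hη1 : 1 ≤ η
    · refine le_trans ?_ hη1
      unfold Pool.KJ.Pe
      rw [← hq.sum_one]
      refine Finset.sum_le_sum fun v _ => ?_
      split_ifs
      · exact le_rfl
      · exact hq0 v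
    push Not at hη1
    refine le_trans ?_ (hdepth η hη)
    unfold Pool.KJ.Pe
    refine Finset.sum_le_sum fun v _ => ?_
    by_cases hc : ∃ j, 1 ≤ j ∧ j ≤ D ∧
        2 ^ (L * (j - 1)) * Pool.KJ.Mj (3 * e₀) L pos zx cz G Q L (zx (x v.1)) (x v.2) 0 ≤
          Real.exp ((C₁ * ((3 * e₀ : ℕ) : ℝ) + C₂ * (R + η₁ * e₀)) / η) * (6 * C₀ * lm) *
            Pool.KJ.Mj (3 * e₀) L pos zx cz G Q L (zx (x v.1)) (x v.2) j
    · obtain ⟨j, hj1, hj2, hj⟩ := hc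
      rw [if_neg, if_neg]
      · exact not_not.2 ⟨j, hj1, hj2, hj⟩
      · refine not_not.2 ⟨j, hj1, hj2, hj.trans ?_⟩
        refine mul_le_mul_of_nonneg_right ?_ ?_
        · have h1 : Real.exp ((C₁ * ((3 * e₀ : ℕ) : ℝ) + C₂ * (R + η₁ * e₀)) / η) * (6 * C₀) ≤
              Real.exp ((3 * C₁ + u + 14 * D + 4) * e₀ / η) := by
            have e1 : 6 * C₀ = Real.exp (Real.log (6 * C₀)) :=
              (Real.exp_log (by positivity)).symm
            rw [e1, ← Real.exp_add]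
            refine Real.exp_le_exp.2 ?_
            rw [le_div_iff₀ hη, add_mul, div_mul_cancel₀ _ hη.ne']
            push_cast
            have h2 : C₂ * (R + η₁ * e₀) ≤ 2 * (C₂ * (ρ * e₀)) := by
              have h3 : R + η₁ * e₀ ≤ 2 * (ρ * e₀) := by linarith only [hR, hηe]
              have h4 := mul_le_mul_of_nonneg_left h3 (by linarith only [hC₂, hη, hη1] : (0 : ℝ) ≤ C₂)
              linarith only [h4]
            have h3 : 0 ≤ C₃ * (ρ * e₀) := by positivity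
            have h4 : Real.log (6 * C₀) * η ≤ e₀ := by
              rcases le_total 0 (Real.log (6 * C₀)) with h | h
              · nlinarith only [hη1, hlog6, hη]
              · nlinarith only [hη1, hlog6, hη]
            have h5 : 0 ≤ (u : ℝ) * e₀ := by positivity
            have h6 : 0 ≤ (D : ℝ) * e₀ := by positivity
            have e2 : (3 * C₁ + u + 14 * D + 4) * (e₀ : ℝ) =
              3 * (C₁ * e₀) + u * e₀ + 14 * (D * e₀) + 4 * e₀ := by ring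
            rw [e2]
            linarith only [hC₀, hm₃, hem₃, hCρ, hη, hη1, h2, h3, h4, h5, h6]
          have h2 := mul_le_mul_of_nonneg_right h1 hlm0.le
          linarith only [h2]
        · unfold Pool.KJ.Mj
          obtain ⟨c, hc⟩ : ∃ c : Fin n → ℝ, c = Pool.KJ.crb L (Pool.KJ.scb L pos L (x v.2)) :=
            ⟨_, rfl⟩
          rw [← hc]
          refine (abs_nonneg _).trans (le_cs c (1 / 2 ^ L) _ c ?_)
          intro i
          exact ⟨le_rfl, by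
            have : (0 : ℝ) < 1 / 2 ^ L := by positivity
            linarith only [this]⟩
    · have hc' := not_exists.2 fun j hj => hc ⟨j, hj⟩
      rw [if_pos hc']
      split_ifs
      · exact le_rfl
      · exact hq0 v

end Pool.KS3
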