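import Pool.Agent.H82.KSP.CNT

/-!
# The depth of the second point in the leaf polynomial of the first one

`K_JUMP_helper79.md`, section 1 (DEPTH). `Q ζ` is the polynomial of the leaf `ζ`, `g ζ` the size
of its derivative in the passive direction. At the second incidence of the line the jet of
`Q (z₁)` is at most `2 ^ (C a) lm g (z₁)` and the jet of its derivative is at least
`2 ^ (- C a) g (z₁)`, in the mean.
-/

set_option autoImplicit false

namespace Pool.KS3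

open Finset Real
open Pool.Agent.H49.Ent Pool.Agent.H32.Dense Pool.STK Pool.KAF Pool.KAL Pool.KST

/-- Row DEP, in the mean. -/
theorem dep (n D : ℕ) (C₀ : ℝ) (hC₀ : 1 ≤ C₀) (k₀ : ℕ) : ∃ C : ℝ, 1 ≤ C ∧
    ∀ (a L : ℕ) (Ω Λ Ξ Z : Type) [Fintype Ω] (p : Ω → ℝ) (lam : Ω → Λ)
      (x : Ω → Ξ) (T : Ξ → ℕ) (pos : Ξ → Option (Fin n) → ℕ) (A B : Λ → Option (Fin n) → ℝ)
      (zx : Ξ → Z) (zl : Λ → ℕ → Z) (cz : Z → Option (Fin n) → ℕ)
      (G : Z → MvPolynomial (Fin n) ℝ) (κ γ : ℕ) (δ ε e₁ eT lm : ℝ) (e : Ξ → ℝ),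
      StepF n a L C₀ p lam x T pos A B zx zl cz →
      (∀ ω, 0 < p ω → RegG (G (zx (x ω))) (fun _ => 0) 1 k₀ (3 * C₀)) →
      (∀ ω, 0 < p ω → |rp (2 ^ L) (posS pos L) (x ω) none - MvPolynomial.eval
        (fun i => rp (2 ^ L) (posS pos L) (x ω) (some i)) (G (zx (x ω)))| ≤ 3 * C₀ / 2 ^ L) →
      (∀ ω, 0 < p ω → ¬ Bad (G (zx (x ω))) (fun _ => 0) 1 D lm) →
      6 * C₀ / 2 ^ L ≤ lm → lm ≤ 1 →
      0 < δ → (∀ a, 0 ≤ e a) → Ex p (fun ω => e (x ω)) ≤ ε → NCF p lam x B δ e →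
      n.factorial * (3 * C₀) ^ n ≤ δ ^ n * 2 ^ γ → 1 ≤ κ →
      L * Real.log 2 - CH p (fun ω => TS T L (x ω)) (lamS lam x T L) ≤ e₁ → 0 ≤ e₁ →
      (a + L) * Real.log 2 - CH p (fun ω => T (x ω)) lam ≤ eT →
      ∃ (Q : Z → MvPolynomial (Option (Fin n)) ℝ) (g : Z → ℝ),
        (∀ ζ, Q ζ ≠ 0 ∧ (Q ζ).totalDegree ≤ D) ∧ (∀ ζ, 0 < g ζ) ∧
        (∀ ω, 0 < p ω → PsiC (6 * C₀ / 2 ^ L / lm) (Q (zx (x ω))) (6 * C₀ / 2 ^ (a + L))
          (rp (2 ^ (a + L)) pos (x ω)) ≤ C * lm * g (zx (x ω))) ∧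
        (∀ ω, 0 < p ω → MvPolynomial.pderiv none (Q (zx (x ω))) ≠ 0) ∧
        Ex p (fun ω => Real.log (g (zx (x ω)))) ≤
          Ex p (fun ω => Real.log (1 / 2 ^ a * Psi (MvPolynomial.pderiv none (Q (zx (x ω))))
            (6 * C₀ / 2 ^ (a + L)) (rp (2 ^ (a + L)) pos (x ω)))) +
          C * (e₁ + L / κ + γ + κ + 1 + ε * L) ∧
        Ex (dbl p lam) (fun v => max 0 (Real.log (PsiC (6 * C₀ / 2 ^ L / lm) (Q (zx (x v.1)))
            (6 * C₀ / 2 ^ (a + L)) (rp (2 ^ (a + L)) pos (x v.2))) -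
            Real.log (C * lm * g (zx (x v.1))))) ≤
          2 * D * (a * Real.log 2 + e₁) + C ∧
        Ex (dbl p lam) (fun v => max 0 (Real.log (g (zx (x v.1))) - Real.log (1 / 2 ^ a *
            Psi (MvPolynomial.pderiv none (Q (zx (x v.1)))) (6 * C₀ / 2 ^ (a + L))
              (rp (2 ^ (a + L)) pos (x v.2))))) ≤
          2 * D * (a * Real.log 2 + e₁) + 2 * D * eT + C * (e₁ + L / κ + γ + κ + 1 + ε * L) := by
  classical
  have h3C : (1 : ℝ) ≤ 3 * C₀ := by linarith only [hC₀]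
  obtain ⟨Cq, hCq, hqdt⟩ := qdt n D k₀ C₀ hC₀
  obtain ⟨Co, hCo, hone⟩ := onep n D C₀ hC₀
  obtain ⟨Ct, hCt, htwo⟩ := two n D C₀ hC₀
  have hD0 : (0 : ℝ) ≤ D := Nat.cast_nonneg D
  have hl2 : 0 < Real.log 2 := Real.log_pos (by norm_num)
  set c₂ : ℝ := Real.log ((D + 1) * Cq) with hc₂
  have hc₂0 : 0 ≤ c₂ := Real.log_nonneg (by nlinarith only [hCq])
  refine ⟨Cq + c₂ + 2 * Co + Ct, by linarith, ?_⟩
  intro a L Ω Λ Ξ Z _ p lam x T pos A B zx zl cz G κ γ δ ε e₁ eT lm e hF hreg hgr hbad hlm hlm1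
    hδ he hex hnc hγ hκ he₁ he₁0 heT
  have hp := hF.leaf.isLaw
  have hp0 := hp.nonneg
  set q := dbl p lam with hqdef
  have hq0 : ∀ v, 0 ≤ q v := dbl_nonneg hp0
  have m1 : Marg q p (fun v => v.1) := dbl_fst hp0
  have m2 : Marg q p (fun v => v.2) := dbl_snd hp0
  have hq : IsLaw q := ⟨hq0, by rw [m1.sum]; exact hp.sum_one⟩
  obtain ⟨Q, g, hQ, hg, hjet, hder, hfill⟩ := hqdt a L Ω Λ Ξ Z p lam x T pos A B zx zl cz G κ γ
    δ ε e₁ lm e hF hreg hgr hbad hlm hlm1 hδ he hex hnc hγ hκ he₁ he₁0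
  have hC0 : (0 : ℝ) < C₀ := by linarith only [hC₀]
  have hCq0 : (0 : ℝ) < Cq := by linarith only [hCq]
  have h2L : (0 : ℝ) < 2 ^ L := by positivity
  have h2a : (0 : ℝ) < 2 ^ a := by positivity
  have h2aL : (0 : ℝ) < 2 ^ (a + L) := by positivity
  set h₀ : ℝ := 6 * C₀ / 2 ^ L with hh₀
  have hh₀0 : 0 < h₀ := by positivity
  have hlm0 : 0 < lm := hh₀0.trans_le hlm
  set s : ℝ := h₀ / lm with hs
  have hs0 : 0 < s := div_pos hh₀0 hlm0
  have hs1 : s ≤ 1 := by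
    rw [hs, div_le_one hlm0]
    exact hlm
  set h : ℝ := 6 * C₀ / 2 ^ (a + L) with hh
  have hh0 : 0 < h := by positivity
  set r : ℝ := lm / 2 ^ a with hr
  have hr0 : 0 < r := by positivity
  have hhs : h / s = r := by
    rw [hh, hs, hr, hh₀, pow_add]
    field_simp
  have hhr : h ≤ r := by
    rw [← hhs, le_div_iff₀ hs0]
    nlinarith only [hs1, hh0]
  set M : ℕ := 2 ^ (a + L) with hM
  -- the jets at the second incidence
  set Ψ₁ : Ω × Ω → ℝ := fun v => PsiC s (Q (zx (x v.1))) h (rp M pos (x v.2)) with hΨ₁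
  set Ψ₂ : Ω × Ω → ℝ := fun v => PsiA (MvPolynomial.pderiv none (Q (zx (x v.1)))) (thk h r)
    (rp M pos (x v.2)) with hΨ₂
  set Ψ₃ : Ω × Ω → ℝ := fun v => 1 / 2 ^ a * Psi (MvPolynomial.pderiv none (Q (zx (x v.1)))) h
    (rp M pos (x v.2)) with hΨ₃
  have hΨ₁A : ∀ v, Ψ₁ v = PsiA (Q (zx (x v.1))) (thk h r) (rp M pos (x v.2)) := by
    intro v
    simp only [hΨ₁]
    rw [PsiC_eq hs0.ne', hhs]
  have hΨ₁0 : ∀ v, 0 < Ψ₁ v := fun v => PsiC_pos hs0.ne' (hQ _).1 hh0 _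
  have hΨ₃0 : ∀ v, 0 < q v → 0 < Ψ₃ v := by
    intro v hv
    have := Psi_pos _ (hder v.1 (m1.pos hq0 hv)) h hh0 (rp M pos (x v.2))
    exact mul_pos (div_pos one_pos h2a) this
  have hthk : thk h h = fun _ : Option (Fin n) => h := by
    funext o
    cases o <;> rfl
  have hΨ₂₃ : ∀ v, 2 ^ a * Ψ₃ v ≤ Ψ₂ v := by
    intro v
    simp only [hΨ₂, hΨ₃]
    rw [← mul_assoc, mul_one_div_cancel h2a.ne', one_mul, ← PsiA_const, ← hthk]
    exact PsiA_mono _ _ _ (thk_pos hh0 hh0) (thk_le le_rfl hhr) _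
  have hΨ₂0 : ∀ v, 0 < q v → 0 < Ψ₂ v := fun v hv =>
    lt_of_lt_of_le (mul_pos h2a (hΨ₃0 v hv)) (hΨ₂₃ v)
  have hΨ₂₁ : ∀ v, r * Ψ₂ v ≤ D * Ψ₁ v := by
    intro v
    rw [hΨ₁A]
    exact jet_pderiv_le _ (hQ _).2 h r r hh0 hr0 le_rfl _
  -- L1
  have L1 := hone a L Ω Λ Ξ Z p lam x T pos A B zx zl cz s Q (fun ζ => Cq * lm * g ζ) e₁ hF hs0
    hs1 (fun ω _ => hQ _) hjet he₁
  -- L2, L3
  set P₁ : Z → MvPolynomial (Option (Fin n)) ℝ := fun ζ =>
    MvPolynomial.C (1 / 2 ^ a) * MvPolynomial.pderiv none (Q ζ) with hP₁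
  have hP₁Psi : ∀ ζ z, PsiC 1 (P₁ ζ) h z =
      1 / 2 ^ a * Psi (MvPolynomial.pderiv none (Q ζ)) h z := by
    intro ζ z
    rw [PsiC_one]
    simp only [hP₁]
    rw [Psi_C_mul, abs_of_pos (by positivity)]
  have L2 : Ex p (fun ω => Real.log (PsiC 1 (P₁ (zx (x ω))) h (rp M pos (x ω)))) ≤
      Ex q (fun v => Real.log (PsiC 1 (P₁ (zx (x v.1))) h (rp M pos (x v.2)))) +
        2 * D * eT + Ct :=
    htwo a L Ω Λ Ξ Z Z p lam x T pos A B zx zl cz 1 (fun ω => zx (x ω)) P₁ eT hF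
    one_pos le_rfl (by
      intro ω hω
      refine ⟨?_, ?_⟩
      · simp only [hP₁]
        refine mul_ne_zero ?_ (hder ω hω)
        rw [Ne, MvPolynomial.C_eq_zero]
        positivity
      · simp only [hP₁]
        refine (MvPolynomial.totalDegree_mul _ _).trans ?_
        rw [MvPolynomial.totalDegree_C, zero_add]
        exact (totalDegree_pderiv_le' _ _).trans (hQ _).2) heT
  simp only [hP₁Psi] at L2
  -- the positive part of log g - log Ψ₃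
  have hpart : ∀ v, 0 < q v → max 0 (Real.log (g (zx (x v.1))) - Real.log (Ψ₃ v)) ≤
      (Real.log (g (zx (x v.1))) - Real.log (Ψ₃ v)) + (c₂ +
        max 0 (Real.log (Ψ₁ v) - Real.log (Cq * lm * g (zx (x v.1))))) := by
    intro v hv
    have hg1 := hg (zx (x v.1))
    have h1 : Ψ₃ v ≤ (D + 1) / lm * Ψ₁ v := by
      have h2 := hΨ₂₃ v
      have h3 := hΨ₂₁ v
      have h4 : r * (2 ^ a * Ψ₃ v) ≤ (D + 1) * Ψ₁ v := by
        have h5 : r * (2 ^ a * Ψ₃ v) ≤ r * Ψ₂ v := mul_le_mul_of_nonneg_left h2 hr0.le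
        have h6 := hΨ₁0 v
        linarith only [h3, h5, h6]
      have h7 : r * (2 ^ a * Ψ₃ v) = lm * Ψ₃ v := by
        rw [hr]
        field_simp
      rw [h7] at h4
      rw [div_mul_eq_mul_div, le_div_iff₀ hlm0]
      linarith only [h4]
    have h2 := Real.log_le_log (hΨ₃0 v hv) h1
    have hD1 : (0 : ℝ) < D + 1 := by linarith only
    rw [Real.log_mul (by positivity) (hΨ₁0 v).ne', Real.log_div hD1.ne' hlm0.ne'] at h2
    have h3 : Real.log (Cq * lm * g (zx (x v.1))) = Real.log Cq + Real.log lm +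
        Real.log (g (zx (x v.1))) := by
      rw [Real.log_mul (mul_pos hCq0 hlm0).ne' hg1.ne', Real.log_mul hCq0.ne' hlm0.ne']
    have h4 : c₂ = Real.log (D + 1) + Real.log Cq := by
      rw [hc₂, Real.log_mul hD1.ne' (by positivity)]
    have h5 := le_max_right 0 (Real.log (Ψ₁ v) - Real.log (Cq * lm * g (zx (x v.1))))
    have h6 := le_max_left 0 (Real.log (Ψ₁ v) - Real.log (Cq * lm * g (zx (x v.1))))
    refine max_le ?_ ?_
    · linarith only [h2, h3, h4, h5]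
    · linarith only [hc₂0, h6]
  have L3 : Ex q (fun v => max 0 (Real.log (g (zx (x v.1))) - Real.log (Ψ₃ v))) ≤
      (Cq * (e₁ + L / κ + γ + κ + 1 + ε * L) + 2 * D * eT + Ct) +
        (c₂ + (2 * D * (a * Real.log 2 + e₁) + Co)) := by
    have h1 := Ex_mono hq0 hpart
    rw [Ex_add, Ex_sub, Ex_add, Ex_const hq.sum_one] at h1
    have h2 : Ex q (fun v => Real.log (g (zx (x v.1)))) = Ex p (fun ω => Real.log (g (zx (x ω)))) :=
      m1.ex (fun ω => Real.log (g (zx (x ω))))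
    rw [h2] at h1
    have h3 : Ex q (fun v => Real.log (Ψ₃ v)) = Ex (dbl p lam) (fun v => Real.log (1 / 2 ^ a *
      Psi (MvPolynomial.pderiv none (Q (zx (x v.1)))) (6 * C₀ / 2 ^ (a + L))
        (rp (2 ^ (a + L)) pos (x v.2)))) := rfl
    rw [h3] at h1
    have h4 : Ex q (fun v => max 0 (Real.log (Ψ₁ v) - Real.log (Cq * lm * g (zx (x v.1))))) ≤
      2 * D * (a * Real.log 2 + e₁) + Co := L1
    linarith only [hfill, L1, L2, h1]
  -- conclusion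
  set E : ℝ := e₁ + L / κ + γ + κ + 1 + ε * L with hE
  have hε : 0 ≤ ε := le_trans (Ex_nonneg hp0 fun ω _ => he (x ω)) hex
  have hE1 : 1 ≤ E := by
    rw [hE]
    have h1 : (0 : ℝ) ≤ L / κ := by positivity
    have h2 : (0 : ℝ) ≤ γ := Nat.cast_nonneg γ
    have h3 : (0 : ℝ) ≤ κ := Nat.cast_nonneg κ
    have h4 : 0 ≤ ε * L := by positivity
    linarith only [he₁0, h1, h4]
  obtain ⟨CC, hCC⟩ : ∃ CC, CC = Cq + c₂ + 2 * Co + Ct := ⟨_, rfl⟩
  rw [← hCC]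
  have hCCq : Cq ≤ CC := by rw [hCC]; linarith only [hCo, hCt, hc₂0]
  refine ⟨Q, g, hQ, hg, fun ω hω => (hjet ω hω).trans ?_, hder, hfill.trans ?_, ?_, ?_⟩
  · refine mul_le_mul_of_nonneg_right ?_ (hg _).le
    exact mul_le_mul_of_nonneg_right hCCq hlm0.le
  · have h1 := mul_le_mul_of_nonneg_right hCCq (show 0 ≤ E by linarith only [hE1])
    linarith only [h1]
  · refine le_trans (Ex_mono hq0 fun v _ => ?_) (L1.trans ?_)
    · refine max_le_max_left 0 ?_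
      have h1 : Real.log (Cq * lm * g (zx (x v.1))) ≤ Real.log (CC * lm * g (zx (x v.1))) := by
        refine Real.log_le_log (mul_pos (mul_pos hCq0 hlm0) (hg _)) ?_
        refine mul_le_mul_of_nonneg_right ?_ (hg _).le
        exact mul_le_mul_of_nonneg_right hCCq hlm0.le
      linarith only [h1]
    · rw [hCC]
      linarith only [hCq, hCo, hCt, hc₂0]
  · refine L3.trans ?_
    have h1 : (c₂ + 2 * Co + Ct) * 1 ≤ (c₂ + 2 * Co + Ct) * E :=
      mul_le_mul_of_nonneg_left hE1 (by positivity)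
    have h2 : CC * E = Cq * E + (c₂ + 2 * Co + Ct) * E := by rw [hCC]; ring
    rw [h2]
    linarith only [hCo, h1]

end Pool.KS3
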