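import Pool.Agent.H77.KJ.Depth
import Pool.Agent.H72.KJ.Stmts

/-!
# Row DEP of LEMMA J

`dep_cell`: on the grid cell of the second point, `2 ^ (L (j - 1)) M_0 ≤ B E ^ 2 lm M_j` for some
`j ≥ 1`. `dep_thm : Pool.KJ.DEPStmt`.
-/

set_option autoImplicit false

namespace Pool.KS3

open Finset Real
open Pool.Agent.H49.Ent Pool.Agent.H32.Dense Pool.STK Pool.KAF Pool.KAL Pool.KST

/-- Moving the point, at a larger distance. -/
lemma PsiC_le_of_dist {n : ℕ} {s : ℝ} (P : MvPolynomial (Option (Fin n)) ℝ) {h M : ℝ}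
    (hh : 0 < h) (hM : 0 ≤ M) {D : ℕ} (hD : P.totalDegree ≤ D) (z z' : Option (Fin n) → ℝ)
    (hz : ∀ o, |cpt s z' o - cpt s z o| ≤ M * h) :
    PsiC s P h z' ≤ (1 + M) ^ D * PsiC s P h z := by
  unfold PsiC
  refine (Psi_le_of_dist _ h M hh hM _ _ hz).trans ?_
  refine mul_le_mul_of_nonneg_right ?_ (Psi_nonneg _ _ _)
  exact pow_le_pow_right₀ (by linarith only [hM]) ((totalDegree_ctr_le P).trans hD)

/-- The value at a point is at most the jet. -/
lemma abs_eval_le_PsiC {n : ℕ} {s : ℝ} (hs : s ≠ 0) (P : MvPolynomial (Option (Fin n)) ℝ)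
    (η : ℝ) (z : Option (Fin n) → ℝ) : |MvPolynomial.eval z P| ≤ PsiC s P η z := by
  rw [PsiC_eq hs]
  have h3 := abs_eval_le_coefSum (shA P (thk η (η / s)) z) (fun _ => 0) (by simp)
  refine le_trans (le_of_eq ?_) h3
  congr 1
  unfold shA
  rw [← MvPolynomial.coe_aeval_eq_eval, ← MvPolynomial.coe_aeval_eq_eval, RingHom.coe_coe,
    RingHom.coe_coe, ← AlgHom.comp_apply, MvPolynomial.comp_aeval]
  congr 2
  funext o
  simp

lemma dN_eq_zero {n : ℕ} {D : ℕ} (P : MvPolynomial (Option (Fin n)) ℝ) (hP : P.totalDegree ≤ D) :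
    ∀ j, D < j → dN j P = 0 := by
  have key : ∀ (d : ℕ) (P : MvPolynomial (Option (Fin n)) ℝ), P.totalDegree ≤ d →
      dN (d + 1) P = 0 := by
    intro d
    induction d with
    | zero =>
      intro P hP
      have h0 : P.totalDegree = 0 := by omega
      rw [MvPolynomial.totalDegree_eq_zero_iff_eq_C] at h0
      rw [h0, dN_succ', dN_zero, MvPolynomial.pderiv_C]
    | succ d ih =>
      intro P hP
      rw [dN_succ]
      exact ih _ (SML.totalDegree_pderiv_le none P d hP)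
  have hz : ∀ i : ℕ, dN i (0 : MvPolynomial (Option (Fin n)) ℝ) = 0 := by
    intro i
    induction i with
    | zero => rw [dN_zero]
    | succ i ih => rw [dN_succ', ih, map_zero]
  intro j hj
  obtain ⟨i, rfl⟩ := Nat.exists_eq_add_of_lt hj
  have : D + i + 1 = (D + 1) + i := by ring
  rw [this]
  induction i with
  | zero => exact key D P hP
  | succ i ih =>
    have e : D + 1 + (i + 1) = (D + 1 + i) + 1 := by ring
    rw [e, dN_succ', ih (by omega) (by ring), map_zero]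

/-- The depth on the grid cell. -/
theorem dep_cell (n D : ℕ) (C₀ : ℝ) (hC₀ : 1 ≤ C₀) : ∃ B : ℝ, 1 ≤ B ∧
    ∀ (Z : Type) (a L k₀ : ℕ) (lm : ℝ) (cz : Z → Option (Fin n) → ℕ)
      (Q : Z → MvPolynomial (Option (Fin n)) ℝ) (g : Z → ℝ) (E : ℝ) (ζ₁ ζ₂ : Z)
      (z : Option (Fin n) → ℝ) (G : MvPolynomial (Fin n) ℝ) (c : Fin n → ℝ),
      (Q ζ₁).totalDegree ≤ D → 6 * C₀ / 2 ^ L ≤ lm → 0 ≤ E → 0 < g ζ₁ →
      RegG G c (1 / 2 ^ L) k₀ (3 * C₀) → c = (fun i => z (some i)) →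
      |z none - MvPolynomial.eval (fun i => z (some i)) G| ≤ 3 * C₀ / 2 ^ L →
      DepE a L C₀ lm cz Q g E ζ₁ ζ₂ z →
      ∃ j, 1 ≤ j ∧ j ≤ D ∧
        2 ^ (L * (j - 1)) * cs c (1 / 2 ^ L) (gr G (dN 0 (pl2 a cz Q ζ₁ ζ₂))) ≤
          B * E ^ 2 * lm * cs c (1 / 2 ^ L) (gr G (dN j (pl2 a cz Q ζ₁ ζ₂))) := by
  have h6C : 1 ≤ 6 * C₀ := by linarith only [hC₀]
  have hC0 : 0 < C₀ := by linarith
  obtain ⟨B, hB1, hB⟩ := depth_jet n D (6 * C₀) h6C
  have hn0 : (0 : ℝ) ≤ n := Nat.cast_nonneg n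
  obtain ⟨K, hK⟩ : ∃ K : ℝ, K = (1 + (n + 1 : ℝ)) ^ D := ⟨_, rfl⟩
  have hK1 : 1 ≤ K := by rw [hK]; exact one_le_pow₀ (by linarith)
  refine ⟨K * B, by nlinarith only [hB1, hK1], ?_⟩
  intro Z a L k₀ lm cz Q g E ζ₁ ζ₂ z G c hQ hlm hE hg hG hc hzN hD
  obtain ⟨hD1, hD2⟩ := hD
  obtain ⟨P, hP⟩ : ∃ P, P = pl2 a cz Q ζ₁ ζ₂ := ⟨_, rfl⟩
  rw [← hP] at hD1 hD2 ⊢
  have hPd : P.totalDegree ≤ D := by
    rw [hP]
    exact (totalDegree_shf_le _ _ _).trans hQ
  have h2L : (0 : ℝ) < 2 ^ L := by positivity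
  obtain ⟨η, hη⟩ : ∃ η : ℝ, η = 6 * C₀ / 2 ^ L := ⟨_, rfl⟩
  have hη0 : 0 < η := by rw [hη]; positivity
  have hlm0 : 0 < lm := by
    rw [← hη] at hlm
    linarith only [hlm, hη0]
  obtain ⟨σ, hσ⟩ : ∃ σ : ℝ, σ = 1 / 2 ^ L := ⟨_, rfl⟩
  have hσ0 : 0 < σ := by rw [hσ]; positivity
  have hησ : η = 6 * C₀ * σ := by rw [hη, hσ]; ring
  have hη3 : 3 * C₀ / 2 ^ L = 3 * C₀ * σ := by rw [hσ]; ring
  rw [hη3] at hzN
  rw [← hη] at hD1 hD2 hlm
  rw [← hσ] at hG ⊢
  have hG' : RegG G c σ k₀ (6 * C₀) := ⟨hG.deg, fun y hy i => (hG.slope y hy i).trans (by linarith only [hC₀])⟩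
  have hcc : (fun i => z (some i)) ∈ cube c σ := by
    rw [hc]
    exact fun i => ⟨le_rfl, by linarith only [hσ0]⟩
  obtain ⟨M, hM⟩ : ∃ M : ℕ → ℝ, M = fun j => cs c σ (gr G (dN j P)) := ⟨_, rfl⟩
  have hM0 : ∀ j, 0 ≤ M j := by
    intro j
    rw [hM]
    exact (abs_nonneg _).trans (le_cs c σ _ _ hcc)
  -- the supremum of `h_0`
  obtain ⟨s, hs⟩ : ∃ s : ℝ, s = η / lm := ⟨_, rfl⟩
  have hs0 : 0 < s := by rw [hs]; positivity
  have hs1 : s ≤ 1 := by rw [hs, div_le_one hlm0]; exact hlm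
  rw [← hs] at hD1
  have hM00 : M 0 ≤ K * (E * lm * g ζ₁) := by
    obtain ⟨y, hy, hy'⟩ := cs_attained c σ hσ0.le (gr G (dN 0 P))
    rw [hM]
    simp only
    rw [← hy', dN_zero, eval_gr]
    refine (abs_eval_le_PsiC hs0.ne' P η _).trans ?_
    have h1 := PsiC_le_of_dist (s := s) P hη0 (M := n + 1) (by linarith only) hPd z (gpt G y) (by
      intro o
      cases o with
      | none =>
        simp only [cpt, Option.elim, gpt]
        have e : s * MvPolynomial.eval y G - s * z none =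
            s * ((MvPolynomial.eval y G - MvPolynomial.eval (fun i => z (some i)) G) -
              (z none - MvPolynomial.eval (fun i => z (some i)) G)) := by ring
        rw [e, abs_mul, abs_of_pos hs0]
        have h2 := hG.lip (by linarith only [hC₀]) hy hcc (r := σ) (by
          intro i
          have h3 := hy i
          rw [hc] at h3
          simp only at h3
          rw [abs_le]
          constructor <;> linarith [h3.1, h3.2])
        have h3 := abs_sub (MvPolynomial.eval y G - MvPolynomial.eval (fun i => z (some i)) G)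
          (z none - MvPolynomial.eval (fun i => z (some i)) G)
        have h4 : |(MvPolynomial.eval y G - MvPolynomial.eval (fun i => z (some i)) G) -
            (z none - MvPolynomial.eval (fun i => z (some i)) G)| ≤ (n + 1) * η := by
          refine h3.trans ?_
          rw [hησ]
          have h5 : n * (3 * C₀ * σ) + 3 * C₀ * σ ≤ (n + 1) * (6 * C₀ * σ) := by
            have : 0 ≤ (n + 1 : ℝ) * (3 * C₀ * σ) := by positivity
            linarith only [this]
          linarith only [hzN, h2, h5]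
        have h6 := abs_nonneg ((MvPolynomial.eval y G - MvPolynomial.eval (fun i => z (some i)) G) -
            (z none - MvPolynomial.eval (fun i => z (some i)) G))
        calc _ ≤ 1 * |(MvPolynomial.eval y G - MvPolynomial.eval (fun i => z (some i)) G) -
            (z none - MvPolynomial.eval (fun i => z (some i)) G)| :=
              mul_le_mul_of_nonneg_right hs1 h6
          _ ≤ _ := by rw [one_mul]; exact h4
      | some i =>
        simp only [cpt, Option.elim, gpt]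
        have h3 := hy i
        rw [hc] at h3
        simp only at h3
        have h4 : |y i - z (some i)| ≤ σ := by
          rw [abs_le]
          constructor <;> linarith [h3.1, h3.2]
        refine h4.trans ?_
        rw [hησ]
        have : 0 ≤ (n : ℝ) * (6 * C₀ * σ) := by positivity
        nlinarith only [hσ0, this, hC₀])
    rw [← hK] at h1
    exact h1.trans (mul_le_mul_of_nonneg_left hD1 (by linarith only [hK1]))
  -- the largest derivative
  have h2L1 : (2 : ℝ) ^ L * σ = 1 := by rw [hσ]; field_simp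
  obtain ⟨f, hf⟩ : ∃ f : ℕ → ℝ, f = fun j => M j * σ ^ j := ⟨_, rfl⟩
  have hf0 : ∀ j, 0 ≤ f j := fun j => by
    rw [hf]
    exact mul_nonneg (hM0 j) (by positivity)
  have hjet : ∀ H : ℝ, 0 ≤ H → (∀ j, 1 ≤ j → j ≤ D → f j ≤ H) →
      g ζ₁ ≤ E * (B * (2 ^ L * H)) := by
    intro H hH hj
    have h1 := hB G k₀ c σ η (2 ^ L) H P z hG' hη0 (by rw [hησ]) h2L.le (by
        rw [hησ]
        have : 6 * C₀ * σ * 2 ^ L = 6 * C₀ * (2 ^ L * σ) := by ring
        rw [this, h2L1, mul_one]) hH hPd (by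
        intro y hy j hj1
        by_cases hjD : j ≤ D
        · have h2 := le_cs c σ (gr G (dN j P)) y hy
          have h3 := hj j hj1 hjD
          rw [hf, hM] at h3
          simp only at h3
          have h4 : (2 ^ L : ℝ) ^ j * σ ^ j = 1 := by rw [← mul_pow, h2L1, one_pow]
          calc _ ≤ cs c σ (gr G (dN j P)) := h2
            _ = (2 ^ L) ^ j * (cs c σ (gr G (dN j P)) * σ ^ j) := by
                linear_combination (-cs c σ (gr G (dN j P))) * h4
            _ ≤ _ := mul_le_mul_of_nonneg_left h3 (by positivity)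
        · rw [dN_eq_zero P hPd j (by omega)]
          have : gr G (0 : MvPolynomial (Option (Fin n)) ℝ) = 0 := map_zero _
          rw [this, map_zero, abs_zero]
          positivity) hcc (by
        refine hzN.trans ?_
        rw [hησ]
        have h2 : 3 * C₀ * σ ≤ 6 * C₀ * σ := by nlinarith only [hη0, hησ]
        have h3 : 6 * C₀ * σ ≤ 6 * C₀ * (6 * C₀ * σ) := by
          have : 0 ≤ 6 * C₀ * σ := by positivity
          nlinarith only [hσ0, hC₀, hη0, hησ]
        linarith only [hη0, hησ, h3])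
    exact hD2.trans (mul_le_mul_of_nonneg_left h1 hE)
  have hDpos : 1 ≤ D := by
    by_contra hcon
    have h1 := hjet 0 le_rfl (fun j h1 h2 => by omega)
    rw [mul_zero, mul_zero, mul_zero] at h1
    linarith only [hg, h1]
  obtain ⟨j, hj, hmax⟩ := Finset.exists_max_image (Finset.Icc 1 D) f ⟨1, by simp [hDpos]⟩
  rw [Finset.mem_Icc] at hj
  refine ⟨j, hj.1, hj.2, ?_⟩
  have h1 := hjet (f j) (hf0 j) (fun i hi1 hi2 => hmax i (Finset.mem_Icc.2 ⟨hi1, hi2⟩))
  have hMj : cs c σ (gr G (dN j P)) = M j := by rw [hM]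
  have hMz : cs c σ (gr G (dN 0 P)) = M 0 := by rw [hM]
  rw [hMj, hMz]
  have h3 : (2 : ℝ) ^ (L * (j - 1)) * (2 ^ L * f j) = M j := by
    rw [hf]
    simp only
    have h4 : (2 : ℝ) ^ (L * (j - 1)) * 2 ^ L = (2 ^ L) ^ j := by
      rw [← pow_add, ← pow_mul]
      congr 1
      obtain ⟨i, rfl⟩ := Nat.exists_eq_add_of_le hj.1
      rw [Nat.add_sub_cancel_left]
      ring
    have h5 : (2 ^ L : ℝ) ^ j * σ ^ j = 1 := by rw [← mul_pow, h2L1, one_pow]
    calc (2 : ℝ) ^ (L * (j - 1)) * (2 ^ L * (M j * σ ^ j))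
        = (2 : ℝ) ^ (L * (j - 1)) * 2 ^ L * σ ^ j * M j := by ring
      _ = M j := by rw [h4, h5, one_mul]
  have h2p : (0 : ℝ) ≤ 2 ^ (L * (j - 1)) := by positivity
  calc (2 : ℝ) ^ (L * (j - 1)) * M 0
      ≤ 2 ^ (L * (j - 1)) * (K * (E * lm * g ζ₁)) := mul_le_mul_of_nonneg_left hM00 h2p
    _ ≤ 2 ^ (L * (j - 1)) * (K * (E * lm * (E * (B * (2 ^ L * f j))))) := by
        refine mul_le_mul_of_nonneg_left ?_ h2p
        refine mul_le_mul_of_nonneg_left ?_ (by linarith only [hK1])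
        exact mul_le_mul_of_nonneg_left h1 (by positivity)
    _ = K * B * E ^ 2 * lm * (2 ^ (L * (j - 1)) * (2 ^ L * f j)) := by ring
    _ = _ := by rw [h3]

/-- **Row DEP.** -/
theorem dep_thm : Pool.KJ.DEPStmt := by
  classical
  intro n D C₀ hC₀
  have hl2 : 0 < Real.log 2 := Real.log_pos (by norm_num)
  have hD0 : (0 : ℝ) ≤ D := Nat.cast_nonneg D
  refine ⟨8 * D + 1, by linarith only, ?_⟩
  intro k₀
  obtain ⟨C, hC1, hdepth⟩ := depth n D C₀ hC₀ k₀
  obtain ⟨B, hB1, hcell⟩ := dep_cell n D C₀ hC₀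
  have hBC : 0 ≤ Real.log (B * C ^ 2) := Real.log_nonneg (by
    have : 1 ≤ C ^ 2 := one_le_pow₀ hC1
    nlinarith only [this, hB1])
  refine ⟨8 * D + 2 * C + Real.log (B * C ^ 2) + 1, by linarith, ?_⟩
  intro a L Ω Λ Ξ Z _ p lam x T pos A Bv zx zl cz G κ γ N δ ε e₁ e₃ eT lm e hF hbad hlm hlm1 heT
  have hp := hF.step.leaf.isLaw
  have hp0 := hp.nonneg
  have hq0 : ∀ v, 0 ≤ dbl p lam v := dbl_nonneg hp0
  have m1 : Marg (dbl p lam) p (fun v => v.1) := dbl_fst hp0
  have m2 : Marg (dbl p lam) p (fun v => v.2) := dbl_snd hp0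
  have hq : IsLaw (dbl p lam) := ⟨hq0, by rw [m1.sum]; exact hp.sum_one⟩
  have hC0 : (0 : ℝ) < C₀ := by linarith
  have h2L : (0 : ℝ) < 2 ^ L := by positivity
  have hlm0 : 0 < lm := lt_of_lt_of_le (by positivity) hlm
  obtain ⟨hR1, hR2, hR3⟩ := hF.le_RR
  obtain ⟨R, hR⟩ : ∃ R, R = RR n L κ γ N ε e₁ e₃ := ⟨_, rfl⟩
  rw [← hR] at hR1 hR2 hR3 ⊢
  have he₃0 := hF.e₃_nonneg
  have heT0 : 0 ≤ eT := by
    refine le_trans ?_ heT
    have h1 : CH p (fun ω => T (x ω)) lam ≤ (a + L) * Real.log 2 := by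
      have h2 := CH_le_card hp0 hp.sum_one (fun ω => T (x ω)) lam
        (fun _ => Finset.range (2 ^ (a + L))) (fun ω _ => by
          rw [Finset.mem_range]
          exact hF.step.leaf.T_lt ω)
      refine h2.trans (le_of_eq ?_)
      rw [Ex_const hp.sum_one, Finset.card_range]
      push_cast
      rw [Real.log_pow]
      push_cast
      ring
    linarith only [h1]
  have hγ : n.factorial * (3 * C₀) ^ n ≤ δ ^ n * 2 ^ γ := by
    refine le_trans ?_ hF.hγ
    refine mul_le_mul_of_nonneg_left ?_ (by positivity)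
    exact pow_le_pow_left₀ (by positivity) (by linarith only [hC₀]) _
  obtain ⟨Q, g, hQ, hg, -, -, -, hmass⟩ := hdepth a L Ω Λ Ξ Z p lam x T pos A Bv zx zl cz G κ γ
    δ ε e₁ eT lm e hF.step hF.reg hF.gr hbad hlm hlm1 hF.hδ hF.he hF.hex hF.hnc hγ hF.hκ hF.he₁
    hF.he₁0 heT
  refine ⟨Q, hQ, ?_⟩
  intro η hη
  by_cases hη1 : 1 ≤ η
  · refine le_trans ?_ hη1
    unfold Pool.KJ.Pe
    rw [← hq.sum_one]
    refine Finset.sum_le_sum fun v _ => ?_
    split_ifs
    · exact le_rfl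
    · exact hq0 v
  push Not at hη1
  obtain ⟨R₁, hR₁⟩ : ∃ R₁ : ℝ, R₁ = e₁ + L / κ + γ + κ + 1 + ε * L := ⟨_, rfl⟩
  rw [← hR₁] at hmass hR1
  have he₁0 := hF.he₁0
  have hR₁1 : 1 ≤ R₁ := by
    rw [hR₁]
    have h1 : (0 : ℝ) ≤ L / κ := by positivity
    have h2 : (0 : ℝ) ≤ γ := Nat.cast_nonneg γ
    have h3 : (0 : ℝ) ≤ κ := Nat.cast_nonneg κ
    have h4 : 0 ≤ ε * L := mul_nonneg hF.ε_nonneg (Nat.cast_nonneg L)
    linarith only [he₁0, h1, h4]
  have ha0 : (0 : ℝ) ≤ a := Nat.cast_nonneg a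
  obtain ⟨num, hnum⟩ : ∃ num : ℝ, num = 4 * D * (a * Real.log 2 + e₁) + 2 * D * eT + C * R₁ :=
    ⟨_, rfl⟩
  have hnum0 : 0 < num := by
    rw [hnum]
    have h1 : 0 ≤ 4 * D * (a * Real.log 2 + e₁) := by positivity
    have h2 : 0 ≤ 2 * D * eT := by positivity
    have h3 : 0 < C * R₁ := by positivity
    linarith only [h1, h2, h3]
  obtain ⟨b, hb⟩ : ∃ b : ℝ, b = num / η := ⟨_, rfl⟩
  have hb0 : 0 < b := by rw [hb]; exact div_pos hnum0 hη
  have hmass' := hmass b hb0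
  rw [← hnum] at hmass'
  have e1 : num / b = η := by
    rw [hb]
    field_simp
  rw [e1] at hmass'
  refine le_trans ?_ hmass'
  unfold Pool.KJ.Pe
  refine Finset.sum_le_sum fun v _ => ?_
  have hv0 := hq0 v
  by_cases hv : 0 < dbl p lam v
  swap
  · have h1 : dbl p lam v = 0 := le_antisymm (not_lt.1 hv) hv0
    rw [h1]
    split_ifs <;> simp
  by_cases hE : DepE a L C₀ lm cz Q g (C * Real.exp b) (zx (x v.1)) (zx (x v.2))
      (rp (2 ^ L) (posS pos L) (x v.2))
  swap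
  · rw [if_neg hE]
    split_ifs <;> linarith
  rw [if_pos hE, if_neg]
  rw [not_not]
  have hp2 : 0 < p v.2 := m2.pos hq0 hv
  obtain ⟨c, hc⟩ : ∃ c : Fin n → ℝ, c = fun i => rp (2 ^ L) (posS pos L) (x v.2) (some i) :=
    ⟨_, rfl⟩
  have hpos : ∀ i, posS pos L (x v.2) (some i) < 2 ^ L := fun i =>
    Nat.mod_lt _ (by positivity)
  have hcub : cube c (1 / 2 ^ L) ⊆ cube (fun _ => 0) 1 := by
    intro y hy i
    have h1 := hy i
    have h2 : c i = (posS pos L (x v.2) (some i) : ℝ) / 2 ^ L := by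
      rw [hc]
      simp only [rp]
      push_cast
      rfl
    have h3 : ((posS pos L (x v.2) (some i) : ℕ) : ℝ) + 1 ≤ 2 ^ L := by
      exact_mod_cast hpos i
    have h4 : c i + 1 / 2 ^ L ≤ 1 := by
      rw [h2, ← add_div, div_le_one h2L]
      exact h3
    have h5 : 0 ≤ c i := by rw [h2]; positivity
    constructor
    · linarith only [h1, h5, h1.1]
    · simp only
      linarith only [h1, h4, h1.2]
  have hreg : RegG (G (zx (x v.2))) c (1 / 2 ^ L) k₀ (3 * C₀) :=
    ⟨(hF.reg v.2 hp2).deg, fun y hy i => (hF.reg v.2 hp2).slope y (hcub hy) i⟩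
  obtain ⟨j, hj1, hjD, hj⟩ := hcell Z a L k₀ lm cz Q g (C * Real.exp b) (zx (x v.1))
    (zx (x v.2)) (rp (2 ^ L) (posS pos L) (x v.2)) (G (zx (x v.2))) c (hQ _).2 hlm
    (by positivity) (hg _) hreg hc (hF.gr v.2 hp2) hE
  refine ⟨j, hj1, hjD, ?_⟩
  have hMj : ∀ i, Pool.KJ.Mj a L pos zx cz G Q L (zx (x v.1)) (x v.2) i =
      cs c (1 / 2 ^ L) (gr (G (zx (x v.2))) (dN i (pl2 a cz Q (zx (x v.1)) (zx (x v.2))))) := by
    intro i
    unfold Pool.KJ.Mj Pool.KJ.hpl
    have h1 : Pool.KJ.crb L (Pool.KJ.scb L pos L (x v.2)) = c := by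
      rw [hc]
      funext k
      simp only [Pool.KJ.crb, Pool.KJ.scb, rp, Nat.sub_self, pow_zero, Nat.div_one]
      push_cast
      rfl
    rw [h1]
    rfl
  rw [hMj, hMj]
  refine hj.trans ?_
  have hcs : 0 ≤ cs c (1 / 2 ^ L) (gr (G (zx (x v.2)))
      (dN j (pl2 a cz Q (zx (x v.1)) (zx (x v.2))))) :=
    (abs_nonneg _).trans (le_cs c _ _ c (fun i => ⟨le_rfl, by
      have : (0 : ℝ) < 1 / 2 ^ L := by positivity
      linarith only [this]⟩))
  refine mul_le_mul_of_nonneg_right ?_ hcs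
  refine mul_le_mul_of_nonneg_right ?_ hlm0.le
  have hBC2 : 0 < B * C ^ 2 := by positivity
  calc B * (C * Real.exp b) ^ 2 = Real.exp (Real.log (B * C ^ 2)) * Real.exp (2 * b) := by
        rw [Real.exp_log hBC2, two_mul, Real.exp_add]
        ring
    _ = Real.exp (Real.log (B * C ^ 2) + 2 * b) := by rw [Real.exp_add]
    _ ≤ _ := by
        rw [Real.exp_le_exp, le_div_iff₀ hη]
        have h1 : b * η = num := by rw [hb]; field_simp
        have h2 : Real.log (B * C ^ 2) * η ≤ Real.log (B * C ^ 2) := by nlinarith only [hBC, hη1]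
        have h3 : Real.log 2 ≤ 1 := by
          have := Real.log_two_lt_d9
          linarith only [hη, hη1, this]
        have h4 : (Real.log (B * C ^ 2) + 2 * b) * η ≤ Real.log (B * C ^ 2) + 2 * num := by
          rw [← h1]
          linarith only [h2]
        refine h4.trans ?_
        rw [hnum]
        have h5 : (D : ℝ) * (a * Real.log 2) ≤ D * a := by
          refine mul_le_mul_of_nonneg_left ?_ hD0
          nlinarith only [h3]
        have h6 : (D : ℝ) * e₁ ≤ D * R := mul_le_mul_of_nonneg_left (by linarith only [hR3, he₃0, hη, hη1]) hD0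
        have h7 : C * R₁ ≤ C * R := mul_le_mul_of_nonneg_left hR1 (by linarith only [hC1, hη, hη1])
        have h8 : 0 ≤ (D : ℝ) * eT := mul_nonneg hD0 heT0
        have h9 : 0 ≤ C * eT := mul_nonneg (by linarith only [hC1, hη, hη1]) heT0
        have h10 : Real.log (B * C ^ 2) ≤ Real.log (B * C ^ 2) * R := by nlinarith only [hBC, hR2]
        have h11 : 0 ≤ Real.log (B * C ^ 2) * eT := mul_nonneg hBC heT0
        have e2 : (8 * D + 2 * C + Real.log (B * C ^ 2) + 1) * (R + eT) =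
            8 * (D * R) + 8 * (D * eT) + 2 * (C * R) + 2 * (C * eT) +
              Real.log (B * C ^ 2) * R + Real.log (B * C ^ 2) * eT + R + eT := by ring
        rw [e2]
        have e3 : (8 * (D : ℝ) + 1) * a = 8 * (D * a) + a := by ring
        rw [e3]
        have e4 : 2 * (4 * D * (a * Real.log 2 + e₁) + 2 * D * eT + C * R₁) =
            8 * (D * (a * Real.log 2)) + 8 * (D * e₁) + 4 * (D * eT) + 2 * (C * R₁) := by ring
        rw [e4]
        linarith only [hR2, heT0, hη, hη1, h5, h6, h7, h8, h9, h10, h11]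

end Pool.KS3
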