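import Pool.Agent.H77.KJ.Dep

/-!
# Depth: the deterministic part

`P` is a polynomial in `(Y, N)`, `G` a graph, `h_j` the restriction of the `j`-th derivative of `P`
in the passive direction to the graph. If `|h_j| ≤ R ^ j H` on a cube for all `j ≥ 1`, then the
jets of `h_1` at the scale of the grid are at most `C R H` at the points of the graph over the cube.
-/

set_option autoImplicit false

namespace Pool.KS3

open Finset Real
open Pool.Agent.H49.Ent Pool.Agent.H32.Dense Pool.STK Pool.KAF Pool.KAL Pool.KST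

/-- Taylor expansion in the passive direction. -/
lemma pas_le {n : ℕ} {c : ℝ} (hc : 0 ≤ c) : ∀ (d : ℕ) (Q : MvPolynomial (Option (Fin n)) ℝ)
    (y : Fin n → ℝ) (N R M θ : ℝ), Q.totalDegree ≤ d → 0 ≤ R → 0 ≤ M → |θ| * R ≤ c →
    (∀ j, |MvPolynomial.eval (fun o : Option (Fin n) => o.elim N y) (dN j Q)| ≤ R ^ j * M) →
    |MvPolynomial.eval (fun o : Option (Fin n) => o.elim (N + θ) y) Q| ≤ (1 + c) ^ d * M := by
  intro d
  induction d with
  | zero =>
    intro Q y N R M θ hQ hR hM hθ hj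
    have hQ0 : Q.totalDegree = 0 := by omega
    rw [MvPolynomial.totalDegree_eq_zero_iff_eq_C] at hQ0
    have h1 := hj 0
    rw [dN_zero, pow_zero, one_mul] at h1
    rw [hQ0, MvPolynomial.eval_C] at h1 ⊢
    rw [pow_zero, one_mul]
    exact h1
  | succ d ih =>
    intro Q y N R M θ hQ hR hM hθ hj
    have h0 := hj 0
    rw [dN_zero, pow_zero, one_mul] at h0
    obtain ⟨z, hz⟩ : ∃ z : Option (Fin n) → ℝ, z = fun o => o.elim N y := ⟨_, rfl⟩
    obtain ⟨v, hv⟩ : ∃ v : Option (Fin n) → ℝ, v = fun o => o.elim θ (fun _ => 0) := ⟨_, rfl⟩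
    have hzt : ∀ t : ℝ, (fun o => z o + t * v o) =
        fun o : Option (Fin n) => o.elim (N + t * θ) y := by
      intro t
      funext o
      rw [hz, hv]
      cases o with
      | none => rfl
      | some i => simp
    have hbd : ∀ t ∈ Set.Icc (0 : ℝ) 1, ‖∑ o, v o * MvPolynomial.eval (fun o => z o + t * v o)
        (MvPolynomial.pderiv o Q)‖ ≤ c * ((1 + c) ^ d * M) := by
      intro t ht
      have h1 : ∑ o, v o * MvPolynomial.eval (fun o => z o + t * v o)
          (MvPolynomial.pderiv o Q) = θ * MvPolynomial.eval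
            (fun o : Option (Fin n) => o.elim (N + t * θ) y) (MvPolynomial.pderiv none Q) := by
        rw [Fintype.sum_option, hzt, hv]
        simp
      rw [h1, Real.norm_eq_abs, abs_mul]
      have htθ : |t * θ| ≤ |θ| := by
        rw [abs_mul, abs_of_nonneg ht.1]
        have := mul_le_mul_of_nonneg_right ht.2 (abs_nonneg θ)
        linarith only [this]
      have h2 := ih (MvPolynomial.pderiv none Q) y N R (R * M) (t * θ)
        (SML.totalDegree_pderiv_le none Q d hQ) hR (mul_nonneg hR hM)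
        ((mul_le_mul_of_nonneg_right htθ hR).trans hθ) (fun j => by
          rw [← dN_succ]
          refine (hj (j + 1)).trans (le_of_eq ?_)
          ring)
      calc |θ| * |MvPolynomial.eval (fun o : Option (Fin n) => o.elim (N + t * θ) y)
            (MvPolynomial.pderiv none Q)| ≤ |θ| * ((1 + c) ^ d * (R * M)) :=
            mul_le_mul_of_nonneg_left h2 (abs_nonneg _)
        _ = |θ| * R * ((1 + c) ^ d * M) := by ring
        _ ≤ c * ((1 + c) ^ d * M) := mul_le_mul_of_nonneg_right hθ (by positivity)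
    have h3 := (convex_Icc (0 : ℝ) 1).norm_image_sub_le_of_norm_hasDerivWithin_le
      (f := fun t : ℝ => MvPolynomial.eval (fun o => z o + t * v o) Q)
      (fun t _ => (hasDerivAt_seg Q z v t).hasDerivWithinAt) hbd
      (x := 0) (y := 1) (by simp) (by simp)
    simp only [hzt] at h3
    rw [one_mul, zero_mul, add_zero, Real.norm_eq_abs, sub_zero, norm_one, mul_one] at h3
    have h4 : (1 : ℝ) ≤ (1 + c) ^ d := one_le_pow₀ (by linarith)
    have h5 : M * 1 ≤ M * (1 + c) ^ d := mul_le_mul_of_nonneg_left h4 hM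
    have h6 := abs_sub_abs_le_abs_sub
      (MvPolynomial.eval (fun o : Option (Fin n) => o.elim (N + θ) y) Q)
      (MvPolynomial.eval (fun o : Option (Fin n) => o.elim N y) Q)
    have h7 : (1 + c) ^ (d + 1) * M = M * (1 + c) ^ d + c * ((1 + c) ^ d * M) := by
      rw [pow_succ]; ring
    rw [h7]
    linarith only [h0, h3, h5, h6]

/-- A regular graph is Lipschitz on its cube. -/
lemma RegG.lip {n : ℕ} {G : MvPolynomial (Fin n) ℝ} {k₀ : ℕ} {C₀ σ : ℝ} {c : Fin n → ℝ}
    (h : RegG G c σ k₀ C₀) (hC : 0 ≤ C₀) {y y' : Fin n → ℝ} (hy : y ∈ cube c σ)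
    (hy' : y' ∈ cube c σ) {r : ℝ} (hr : ∀ i, |y i - y' i| ≤ r) :
    |MvPolynomial.eval y G - MvPolynomial.eval y' G| ≤ n * (C₀ * r) := by
  set v : Fin n → ℝ := fun i => y i - y' i with hv
  have hmem : ∀ t ∈ Set.Icc (0 : ℝ) 1, (fun i => y' i + t * v i) ∈ cube c σ := by
    intro t ht i
    have h1 := hy i
    have h2 := hy' i
    simp only [hv] at h1 h2 ⊢
    constructor
    · nlinarith only [h1, ht, h2, ht.1, ht.2]
    · nlinarith only [h1, ht, h2, ht.1, ht.2]
  have hbd : ∀ t ∈ Set.Icc (0 : ℝ) 1, ‖∑ i, v i * MvPolynomial.eval (fun i => y' i + t * v i)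
      (MvPolynomial.pderiv i G)‖ ≤ n * (C₀ * r) := by
    intro t ht
    rw [Real.norm_eq_abs]
    refine (Finset.abs_sum_le_sum_abs _ _).trans ?_
    have h1 : ∀ i ∈ (univ : Finset (Fin n)), |v i * MvPolynomial.eval
        (fun i => y' i + t * v i) (MvPolynomial.pderiv i G)| ≤ C₀ * r := by
      intro i _
      rw [abs_mul, mul_comm]
      exact mul_le_mul (h.slope _ (hmem t ht) i) (hr i) (abs_nonneg _) hC
    refine (Finset.sum_le_sum h1).trans ?_
    rw [Finset.sum_const, Finset.card_univ, Fintype.card_fin, nsmul_eq_mul]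
  have h3 := (convex_Icc (0 : ℝ) 1).norm_image_sub_le_of_norm_hasDerivWithin_le
    (f := fun t : ℝ => MvPolynomial.eval (fun i => y' i + t * v i) G)
    (fun t _ => (hasDerivAt_seg G y' v t).hasDerivWithinAt) hbd
    (x := 0) (y := 1) (by simp) (by simp)
  have e1 : (fun i => y' i + (1 : ℝ) * v i) = y := by
    funext i
    simp only [hv]
    ring
  have e0 : (fun i => y' i + (0 : ℝ) * v i) = y' := by
    funext i
    ring
  rw [e1, e0, Real.norm_eq_abs, sub_zero, norm_one, mul_one] at h3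
  exact h3

/-- The jets of the first derivative on the graph over a cube. -/
theorem depth_jet (n D : ℕ) (C₀ : ℝ) (hC₀ : 1 ≤ C₀) : ∃ B : ℝ, 1 ≤ B ∧
    ∀ (G : MvPolynomial (Fin n) ℝ) (k₀ : ℕ) (c : Fin n → ℝ) (σ η R H : ℝ)
      (P : MvPolynomial (Option (Fin n)) ℝ) (z : Option (Fin n) → ℝ), RegG G c σ k₀ C₀ →
      0 < η → η ≤ C₀ * σ → 0 ≤ R → η * R ≤ C₀ → 0 ≤ H → P.totalDegree ≤ D →
      (∀ y ∈ cube c σ, ∀ j, 1 ≤ j → |MvPolynomial.eval y (gr G (dN j P))| ≤ R ^ j * H) →
      (fun i => z (some i)) ∈ cube c σ →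
      |z none - MvPolynomial.eval (fun i => z (some i)) G| ≤ C₀ * η →
      Psi (MvPolynomial.pderiv none P) η z ≤ B * (R * H) := by
  obtain ⟨K, hK1, hK⟩ := exists_Psi_le_sup (Option (Fin n)) D
  have hC0 : 0 < C₀ := by linarith only [hC₀]
  have hn0 : (0 : ℝ) ≤ n := Nat.cast_nonneg n
  obtain ⟨cc, hcc⟩ : ∃ cc : ℝ, cc = 1 + n * C₀ := ⟨_, rfl⟩
  have hcc0 : 0 ≤ cc := by rw [hcc]; positivity
  obtain ⟨M₁, hM₁⟩ : ∃ M₁ : ℝ, M₁ = 2 * C₀ ^ 2 + n * C₀ + 1 := ⟨_, rfl⟩
  have hM₁0 : 0 ≤ M₁ := by rw [hM₁]; positivity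
  refine ⟨(2 * C₀) ^ D * ((1 + M₁) ^ D * (K * (1 + cc) ^ D)), ?_, ?_⟩
  · have h1 : (1 : ℝ) ≤ (2 * C₀) ^ D := one_le_pow₀ (by linarith only [hC₀])
    have h2 : (1 : ℝ) ≤ (1 + M₁) ^ D := one_le_pow₀ (by linarith)
    have h3 : (1 : ℝ) ≤ (1 + cc) ^ D := one_le_pow₀ (by linarith)
    have h4 : (1 : ℝ) ≤ K * (1 + cc) ^ D := by nlinarith only [hK1, h3]
    have h5 : (1 : ℝ) ≤ (1 + M₁) ^ D * (K * (1 + cc) ^ D) := by nlinarith only [h2, h4]
    nlinarith only [h1, h5]
  intro G k₀ c σ η R H P z hG hη hησ hR hηR hH hP hj hz hzN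
  obtain ⟨η₁, hη₁⟩ : ∃ η₁ : ℝ, η₁ = η / (2 * C₀) := ⟨_, rfl⟩
  have hη₁0 : 0 < η₁ := by rw [hη₁]; positivity
  have hη₁e : η₁ * (2 * C₀) = η := by rw [hη₁]; field_simp
  have hη₁σ : 2 * η₁ ≤ σ := by
    rw [hη₁]
    have : 2 * (η / (2 * C₀)) = η / C₀ := by field_simp
    rw [this, div_le_iff₀ hC0, mul_comm]
    exact hησ
  have hη₁R : η₁ * R ≤ 1 := by
    have h1 : η₁ * R * (2 * C₀) ≤ C₀ := by
      have : η₁ * R * (2 * C₀) = η₁ * (2 * C₀) * R := by ring
      rw [this, hη₁e]
      exact hηR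
    nlinarith only [hC₀, h1]
  -- a point of the cube at distance from the boundary
  obtain ⟨y, hy⟩ : ∃ y : Fin n → ℝ,
      y = fun i => max (c i + η₁) (min (z (some i)) (c i + σ - η₁)) := ⟨_, rfl⟩
  have hy1 : ∀ i, c i + η₁ ≤ y i ∧ y i ≤ c i + σ - η₁ := by
    intro i
    rw [hy]
    refine ⟨le_max_left _ _, max_le (by linarith only [hη₁σ]) (min_le_right _ _)⟩
  have hy2 : ∀ i, |z (some i) - y i| ≤ η₁ := by
    intro i
    obtain ⟨h1, h2⟩ := hz i
    simp only at h1 h2
    rw [hy]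
    simp only
    rw [abs_le]
    rcases le_total (z (some i)) (c i + σ - η₁) with h3 | h3
    · rw [min_eq_left h3]
      rcases le_total (c i + η₁) (z (some i)) with h4 | h4
      · rw [max_eq_right h4]
        constructor <;> linarith only [hη₁0]
      · rw [max_eq_left h4]
        constructor <;> linarith
    · rw [min_eq_right h3, max_eq_right (by linarith)]
      constructor <;> linarith
  have hyc : y ∈ cube c σ := fun i => ⟨by linarith [(hy1 i).1], by linarith [(hy1 i).2]⟩
  -- the supremum near this point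
  have hsup : ∀ w : Option (Fin n) → ℝ, (∀ o, |w o - gpt G y o| ≤ η₁) →
      |MvPolynomial.eval w (MvPolynomial.pderiv none P)| ≤ (1 + cc) ^ D * (R * H) := by
    intro w hw
    obtain ⟨y', hy'⟩ : ∃ y' : Fin n → ℝ, y' = fun i => w (some i) := ⟨_, rfl⟩
    have hwy : ∀ i, |y i - y' i| ≤ η₁ := by
      intro i
      have h1 := hw (some i)
      rw [hy', abs_sub_comm]
      exact h1
    have hyc' : y' ∈ cube c σ := by
      intro i
      have h1 := hwy i
      rw [abs_le] at h1
      exact ⟨by linarith only [h1, hy1, (hy1 i).1, h1.1, h1.2], by linarith [(hy1 i).2, h1.1, h1.2]⟩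
    obtain ⟨θ, hθ⟩ : ∃ θ, θ = w none - MvPolynomial.eval y' G := ⟨_, rfl⟩
    have hθ1 : |θ| ≤ cc * η₁ := by
      have h1 : |w none - MvPolynomial.eval y G| ≤ η₁ := hw none
      have h2 := hG.lip hC0.le hyc hyc' hwy
      have e : θ = (w none - MvPolynomial.eval y G) +
          (MvPolynomial.eval y G - MvPolynomial.eval y' G) := by rw [hθ]; ring
      rw [e]
      refine (abs_add_le _ _).trans ?_
      rw [hcc]
      have e2 : (1 + n * C₀) * η₁ = η₁ + n * (C₀ * η₁) := by ring
      rw [e2]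
      exact add_le_add h1 h2
    have hθR : |θ| * R ≤ cc := by
      have h1 := mul_le_mul_of_nonneg_right hθ1 hR
      have h2 := mul_le_mul_of_nonneg_left hη₁R hcc0
      calc |θ| * R ≤ cc * η₁ * R := h1
        _ = cc * (η₁ * R) := by ring
        _ ≤ cc * 1 := h2
        _ = cc := mul_one _
    have h3 := pas_le hcc0 D (MvPolynomial.pderiv none P) y' (MvPolynomial.eval y' G) R (R * H) θ
      ((totalDegree_pderiv_le' none P).trans hP) hR (mul_nonneg hR hH) hθR (fun j => by
        have h4 := hj y' hyc' (j + 1) (by omega)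
        rw [eval_gr, dN_succ] at h4
        refine le_trans (le_of_eq ?_) (h4.trans (le_of_eq ?_))
        · rfl
        · ring)
    have e : (fun o : Option (Fin n) => o.elim (MvPolynomial.eval y' G + θ) y') = w := by
      funext o
      cases o with
      | none =>
        simp only [Option.elim]
        rw [hθ]
        ring
      | some i =>
        simp only [Option.elim]
        rw [hy']
    rw [e] at h3
    exact h3
  have hdeg : (MvPolynomial.pderiv none P).totalDegree ≤ D :=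
    (totalDegree_pderiv_le' none P).trans hP
  have h1 := hK (MvPolynomial.pderiv none P) η₁ (gpt G y) ((1 + cc) ^ D * (R * H)) hdeg hη₁0.le hsup
  -- moving the point
  have h2 := Psi_le_of_dist (MvPolynomial.pderiv none P) η₁ M₁ hη₁0 hM₁0 (gpt G y) z (by
    intro o
    cases o with
    | none =>
      change |z none - MvPolynomial.eval y G| ≤ M₁ * η₁
      have h3 := hG.lip hC0.le hz hyc hy2
      have e : z none - MvPolynomial.eval y G = (z none - MvPolynomial.eval
          (fun i => z (some i)) G) + (MvPolynomial.eval (fun i => z (some i)) G -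
          MvPolynomial.eval y G) := by ring
      rw [e]
      refine (abs_add_le _ _).trans ((add_le_add hzN h3).trans ?_)
      rw [hM₁, ← hη₁e]
      have : C₀ * (η₁ * (2 * C₀)) + n * (C₀ * η₁) = (2 * C₀ ^ 2 + n * C₀) * η₁ := by ring
      rw [this]
      nlinarith only [hη₁0]
    | some i =>
      change |z (some i) - y i| ≤ M₁ * η₁
      refine (hy2 i).trans ?_
      have h3 : 1 ≤ M₁ := by
        rw [hM₁]
        have : 0 ≤ 2 * C₀ ^ 2 + n * C₀ := by positivity
        linarith only [this]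
      nlinarith only [hη₁0, hη, hη₁e, hM₁])
  have h3 := Psi_radius_le (MvPolynomial.pderiv none P) η₁ (2 * C₀) (by linarith only [hC₀]) z
  rw [hη₁e] at h3
  have hp1 : (1 + M₁) ^ (MvPolynomial.pderiv none P).totalDegree ≤ (1 + M₁) ^ D :=
    pow_le_pow_right₀ (by linarith only [hM₁0]) hdeg
  have hp2 : (2 * C₀) ^ (MvPolynomial.pderiv none P).totalDegree ≤ (2 * C₀) ^ D :=
    pow_le_pow_right₀ (by linarith only [hC₀]) hdeg
  calc Psi (MvPolynomial.pderiv none P) η z
      ≤ (2 * C₀) ^ D * Psi (MvPolynomial.pderiv none P) η₁ z :=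
        h3.trans (mul_le_mul_of_nonneg_right hp2 (Psi_nonneg _ _ _))
    _ ≤ (2 * C₀) ^ D * ((1 + M₁) ^ D * Psi (MvPolynomial.pderiv none P) η₁ (gpt G y)) := by
        refine mul_le_mul_of_nonneg_left ?_ (by positivity)
        exact h2.trans (mul_le_mul_of_nonneg_right hp1 (Psi_nonneg _ _ _))
    _ ≤ (2 * C₀) ^ D * ((1 + M₁) ^ D * (K * ((1 + cc) ^ D * (R * H)))) := by
        refine mul_le_mul_of_nonneg_left ?_ (by positivity)
        exact mul_le_mul_of_nonneg_left h1 (by positivity)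
    _ = _ := by ring

end Pool.KS3
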