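import Pool.Agent.H77.KJ.DepDet

/-!
# Depth of the second point

`K_JUMP_helper79.md`, (DEPTH). Outside a small event of pairs of incidences of a line, the jets of
the polynomial of the first leaf at the second point are at most `2 ^ (C a) lm g`, and those of its
derivative in the passive direction at least `2 ^ (- C a) g`. Hence, if on a cube around the second
point (in the units of the second leaf) `|h_j| ≤ R ^ j H` for `j ≥ 1`, then
`|h_0| ≤ 2 ^ (C a) lm R H` at the second point.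
-/

set_option autoImplicit false

namespace Pool.KS3

open Finset Real
open Pool.Agent.H49.Ent Pool.Agent.H32.Dense Pool.STK Pool.KAF Pool.KAL Pool.KST

/-- The polynomial of the first leaf in the units of the second leaf. -/
noncomputable def pl2 {Z : Type} {n : ℕ} (a : ℕ) (cz : Z → Option (Fin n) → ℕ)
    (Q : Z → MvPolynomial (Option (Fin n)) ℝ) (ζ₁ ζ₂ : Z) : MvPolynomial (Option (Fin n)) ℝ :=
  shf (Q ζ₁) (1 / 2 ^ a) (crz cz a ζ₂)

/-- The jets of the polynomial of the leaf `ζ₁` and of its derivative at the point `z` of the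
leaf `ζ₂` (in the units of `ζ₂`). -/
def DepE {Z : Type} {n : ℕ} (a L : ℕ) (C₀ lm : ℝ) (cz : Z → Option (Fin n) → ℕ)
    (Q : Z → MvPolynomial (Option (Fin n)) ℝ) (g : Z → ℝ) (E : ℝ) (ζ₁ ζ₂ : Z)
    (z : Option (Fin n) → ℝ) : Prop :=
  PsiC (6 * C₀ / 2 ^ L / lm) (pl2 a cz Q ζ₁ ζ₂) (6 * C₀ / 2 ^ L) z ≤ E * lm * g ζ₁ ∧
    g ζ₁ ≤ E * Psi (MvPolynomial.pderiv none (pl2 a cz Q ζ₁ ζ₂)) (6 * C₀ / 2 ^ L) z

lemma dN_shf {n : ℕ} (P : MvPolynomial (Option (Fin n)) ℝ) (k : ℝ) (y : Option (Fin n) → ℝ) :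
    ∀ j : ℕ, dN j (shf P k y) = MvPolynomial.C (k ^ j) * shf (dN j P) k y := by
  intro j
  induction j with
  | zero => rw [dN_zero, dN_zero, pow_zero, MvPolynomial.C_1, one_mul]
  | succ j ih =>
    rw [dN_succ', ih, dN_succ', MvPolynomial.pderiv_C_mul, pderiv_shf, ← mul_assoc, ← map_mul,
      pow_succ]

/-- The depth, deterministic. -/
theorem depth_det (n D : ℕ) (C₀ : ℝ) (hC₀ : 1 ≤ C₀) : ∃ B : ℝ, 1 ≤ B ∧
    ∀ (Z : Type) (a L k₀ : ℕ) (lm : ℝ) (cz : Z → Option (Fin n) → ℕ)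
      (Q : Z → MvPolynomial (Option (Fin n)) ℝ) (g : Z → ℝ) (E : ℝ) (ζ₁ ζ₂ : Z)
      (z : Option (Fin n) → ℝ) (G : MvPolynomial (Fin n) ℝ) (c : Fin n → ℝ) (σ R H : ℝ),
      (Q ζ₁).totalDegree ≤ D → 6 * C₀ / 2 ^ L ≤ lm → 0 ≤ E →
      RegG G c σ k₀ (3 * C₀) → 1 / 2 ^ L ≤ σ → 0 ≤ R → R ≤ 2 ^ L → 0 ≤ H →
      (fun i => z (some i)) ∈ cube c σ →
      |z none - MvPolynomial.eval (fun i => z (some i)) G| ≤ 3 * C₀ / 2 ^ L →
      (∀ y ∈ cube c σ, ∀ j, 1 ≤ j →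
        |MvPolynomial.eval y (gr G (dN j (pl2 a cz Q ζ₁ ζ₂)))| ≤ R ^ j * H) →
      DepE a L C₀ lm cz Q g E ζ₁ ζ₂ z →
      |MvPolynomial.eval (fun i => z (some i)) (gr G (pl2 a cz Q ζ₁ ζ₂))| ≤
        B * E ^ 2 * lm * (R * H) := by
  have h6C : 1 ≤ 6 * C₀ := by linarith only [hC₀]
  have hC0 : 0 < C₀ := by linarith
  obtain ⟨B, hB1, hB⟩ := depth_jet n D (6 * C₀) h6C
  refine ⟨2 ^ D * B, ?_, ?_⟩
  · have : (1 : ℝ) ≤ 2 ^ D := one_le_pow₀ (by norm_num)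
    nlinarith only [hB1, this]
  intro Z a L k₀ lm cz Q g E ζ₁ ζ₂ z G c σ R H hQ hlm hE hG hσ hR hRL hH hz hzN hj hD
  obtain ⟨hD1, hD2⟩ := hD
  obtain ⟨P, hP⟩ : ∃ P, P = pl2 a cz Q ζ₁ ζ₂ := ⟨_, rfl⟩
  rw [← hP] at hj hD1 hD2 ⊢
  have hPd : P.totalDegree ≤ D := by
    rw [hP]
    exact (totalDegree_shf_le _ _ _).trans hQ
  have h2L : (0 : ℝ) < 2 ^ L := by positivity
  obtain ⟨η, hη⟩ : ∃ η : ℝ, η = 6 * C₀ / 2 ^ L := ⟨_, rfl⟩
  have hη0 : 0 < η := by rw [hη]; positivity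
  have hlm0 : 0 < lm := by
    rw [← hη] at hlm
    linarith only [hlm, hη0]
  have hη3 : 3 * C₀ / 2 ^ L ≤ η := by
    rw [hη]
    exact div_le_div_of_nonneg_right (by linarith only [hC₀]) h2L.le
  rw [← hη] at hD1 hD2 hlm
  have hG' : RegG G c σ k₀ (6 * C₀) := ⟨hG.deg, fun y hy i => (hG.slope y hy i).trans (by linarith only [hC₀])⟩
  have h1 := hB G k₀ c σ η R H P z hG' hη0 (by
      rw [hη, div_eq_mul_one_div]
      exact mul_le_mul_of_nonneg_left hσ (by positivity)) hR (by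
      rw [hη, div_mul_eq_mul_div, div_le_iff₀ h2L]
      exact mul_le_mul_of_nonneg_left hRL (by positivity)) hH hPd hj hz (by
      refine hzN.trans (hη3.trans ?_)
      nlinarith only [hη0, hC₀])
  -- the value at the graph
  obtain ⟨s, hs⟩ : ∃ s : ℝ, s = η / lm := ⟨_, rfl⟩
  have hs0 : 0 < s := by rw [hs]; positivity
  have hs1 : s ≤ 1 := by rw [hs, div_le_one hlm0]; exact hlm
  rw [← hs] at hD1
  have h2 : |MvPolynomial.eval (fun i => z (some i)) (gr G P)| ≤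
      PsiC s P η (gpt G (fun i => z (some i))) := by
    rw [eval_gr, PsiC_eq hs0.ne']
    have h3 := abs_eval_le_coefSum (shA P (thk η (η / s)) (gpt G (fun i => z (some i))))
      (fun _ => 0) (by simp)
    refine le_trans (le_of_eq ?_) h3
    congr 1
    unfold shA
    rw [← MvPolynomial.coe_aeval_eq_eval, ← MvPolynomial.coe_aeval_eq_eval, RingHom.coe_coe,
      RingHom.coe_coe, ← AlgHom.comp_apply, MvPolynomial.comp_aeval]
    congr 2
    funext o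
    simp
  have h4 := PsiC_le_of_near (s := s) P hη0.le hPd z (gpt G (fun i => z (some i))) (by
    intro o
    cases o with
    | none =>
      simp only [cpt, Option.elim, gpt]
      have e : s * MvPolynomial.eval (fun i => z (some i)) G - s * z none =
          -(s * (z none - MvPolynomial.eval (fun i => z (some i)) G)) := by ring
      rw [e, abs_neg, abs_mul, abs_of_pos hs0]
      have h5 := hzN.trans hη3
      have h6 := abs_nonneg (z none - MvPolynomial.eval (fun i => z (some i)) G)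
      nlinarith only [hzN, hs0, hη0, hs1, hη3]
    | some i =>
      simp only [cpt, Option.elim, gpt]
      rw [sub_self, abs_zero]
      exact hη0.le)
  have h7 : (0 : ℝ) < 2 ^ D := by positivity
  have h8 : g ζ₁ ≤ E * (B * (R * H)) := hD2.trans (mul_le_mul_of_nonneg_left h1 hE)
  calc |MvPolynomial.eval (fun i => z (some i)) (gr G P)|
      ≤ 2 ^ D * PsiC s P η z := h2.trans h4
    _ ≤ 2 ^ D * (E * lm * g ζ₁) := mul_le_mul_of_nonneg_left hD1 h7.le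
    _ ≤ 2 ^ D * (E * lm * (E * (B * (R * H)))) := by
        refine mul_le_mul_of_nonneg_left ?_ h7.le
        exact mul_le_mul_of_nonneg_left h8 (by positivity)
    _ = _ := by ring

/-- Markov's inequality for the positive part. -/
lemma markov_pos {Ω : Type} [Fintype Ω] {p : Ω → ℝ} (hp0 : ∀ ω, 0 ≤ p ω) (f : Ω → ℝ) {b : ℝ}
    (hb : 0 < b) : (∑ ω, (open Classical in if b < f ω then p ω else 0)) ≤
      Ex p (fun ω => max 0 (f ω)) / b := by
  classical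
  rw [le_div_iff₀ hb]
  unfold Ex
  rw [Finset.sum_mul]
  refine Finset.sum_le_sum fun ω _ => ?_
  split_ifs with h
  · exact mul_le_mul_of_nonneg_left (h.le.trans (le_max_right _ _)) (hp0 ω)
  · rw [zero_mul]
    exact mul_nonneg (hp0 ω) (le_max_left _ _)

/-- **Row DEP.** -/
theorem depth (n D : ℕ) (C₀ : ℝ) (hC₀ : 1 ≤ C₀) (k₀ : ℕ) : ∃ C : ℝ, 1 ≤ C ∧
    ∀ (a L : ℕ) (Ω Λ Ξ Z : Type) [Fintype Ω] (p : Ω → ℝ) (lam : Ω → Λ)
      (x : Ω → Ξ) (T : Ξ → ℕ) (pos : Ξ → Option (Fin n) → ℕ) (A B : Λ → Option (Fin n) → ℝ)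
      (zx : Ξ → Z) (zl : Λ → ℕ → Z) (cz : Z → Option (Fin n) → ℕ)
      (G : Z → MvPolynomial (Fin n) ℝ) (κ γ : ℕ) (δ ε e₁ eT lm : ℝ) (e : Ξ → ℝ),
      StepF n a L C₀ p lam x T pos A B zx zl cz →
      (∀ ω, 0 < p ω → RegG (G (zx (x ω))) (fun _ => 0) 1 k₀ (3 * C₀)) →
      (∀ ω, 0 < p ω → |rp (2 ^ L) (posS pos L) (x ω) none - MvPolynomial.eval
        (fun i => rp (2 ^ L) (posS pos L) (x ω) (some i)) (G (zx (x ω)))| ≤ 3 * C₀ / 2 ^ L) →
      (∀ ω, 0 < p ω → ¬ Bad (G (zx (x ω))) (fun _ => 0) 1 D lm) →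
      6 * C₀ / 2 ^ L ≤ lm → lm ≤ 1 →
      0 < δ → (∀ a, 0 ≤ e a) → Ex p (fun ω => e (x ω)) ≤ ε → NCF p lam x B δ e →
      n.factorial * (3 * C₀) ^ n ≤ δ ^ n * 2 ^ γ → 1 ≤ κ →
      L * Real.log 2 - CH p (fun ω => TS T L (x ω)) (lamS lam x T L) ≤ e₁ → 0 ≤ e₁ →
      (a + L) * Real.log 2 - CH p (fun ω => T (x ω)) lam ≤ eT →
      ∃ (Q : Z → MvPolynomial (Option (Fin n)) ℝ) (g : Z → ℝ),
        (∀ ζ, Q ζ ≠ 0 ∧ (Q ζ).totalDegree ≤ D) ∧ (∀ ζ, 0 < g ζ) ∧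
        (∀ ω, 0 < p ω → PsiC (6 * C₀ / 2 ^ L / lm) (Q (zx (x ω))) (6 * C₀ / 2 ^ (a + L))
          (rp (2 ^ (a + L)) pos (x ω)) ≤ C * lm * g (zx (x ω))) ∧
        (∀ ω, 0 < p ω → MvPolynomial.pderiv none (Q (zx (x ω))) ≠ 0) ∧
        Ex p (fun ω => Real.log (g (zx (x ω)))) ≤
          Ex p (fun ω => Real.log (1 / 2 ^ a * Psi (MvPolynomial.pderiv none (Q (zx (x ω))))
            (6 * C₀ / 2 ^ (a + L)) (rp (2 ^ (a + L)) pos (x ω)))) +
          C * (e₁ + L / κ + γ + κ + 1 + ε * L) ∧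
        ∀ b : ℝ, 0 < b →
          (∑ v, (open Classical in if DepE a L C₀ lm cz Q g (C * Real.exp b) (zx (x v.1))
            (zx (x v.2)) (rp (2 ^ L) (posS pos L) (x v.2)) then 0 else dbl p lam v)) ≤
          (4 * D * (a * Real.log 2 + e₁) + 2 * D * eT +
            C * (e₁ + L / κ + γ + κ + 1 + ε * L)) / b := by
  classical
  obtain ⟨C, hC1, hdep⟩ := dep n D C₀ hC₀ k₀
  refine ⟨2 * C, by linarith only [hC1], ?_⟩
  intro a L Ω Λ Ξ Z _ p lam x T pos A B zx zl cz G κ γ δ ε e₁ eT lm e hF hreg hgr hbad hlm hlm1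
    hδ he hex hnc hγ hκ he₁ he₁0 heT
  obtain ⟨Q, g, hQ, hg, hjet, hder, hfill, L1, L3⟩ := hdep a L Ω Λ Ξ Z p lam x T pos A B zx zl cz
    G κ γ δ ε e₁ eT lm e hF hreg hgr hbad hlm hlm1 hδ he hex hnc hγ hκ he₁ he₁0 heT
  have hp := hF.leaf.isLaw
  have hp0 := hp.nonneg
  have hq0 : ∀ v, 0 ≤ dbl p lam v := dbl_nonneg hp0
  have m1 : Marg (dbl p lam) p (fun v => v.1) := dbl_fst hp0
  have hC0 : (0 : ℝ) < C₀ := by linarith only [hC₀]
  have h2L : (0 : ℝ) < 2 ^ L := by positivity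
  have h2a : (0 : ℝ) < 2 ^ a := by positivity
  have hlm0 : 0 < lm := lt_of_lt_of_le (by positivity) hlm
  have hs0 : 0 < 6 * C₀ / 2 ^ L / lm := by positivity
  obtain ⟨E, hE⟩ : ∃ E : ℝ, E = e₁ + L / κ + γ + κ + 1 + ε * L := ⟨_, rfl⟩
  rw [← hE] at hfill L3 ⊢
  have hε : 0 ≤ ε := le_trans (Ex_nonneg hp0 fun ω _ => he (x ω)) hex
  have hE1 : 1 ≤ E := by
    rw [hE]
    have h1 : (0 : ℝ) ≤ L / κ := by positivity
    have h2 : (0 : ℝ) ≤ γ := Nat.cast_nonneg γ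
    have h3 : (0 : ℝ) ≤ κ := Nat.cast_nonneg κ
    have h4 : 0 ≤ ε * L := by positivity
    linarith only [he₁0, h1, h4]
  have hCE : C * E ≤ 2 * C * E := by nlinarith only [hC1, hE1]
  refine ⟨Q, g, hQ, hg, fun ω hω => (hjet ω hω).trans ?_, hder, hfill.trans (by linarith only [hCE]), ?_⟩
  · refine mul_le_mul_of_nonneg_right ?_ (hg _).le
    exact mul_le_mul_of_nonneg_right (by linarith only [hC1]) hlm0.le
  intro b hb
  obtain ⟨Ψ₁, hΨ₁⟩ : ∃ Ψ₁ : Ω × Ω → ℝ, Ψ₁ = fun v => PsiC (6 * C₀ / 2 ^ L / lm) (Q (zx (x v.1)))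
    (6 * C₀ / 2 ^ (a + L)) (rp (2 ^ (a + L)) pos (x v.2)) := ⟨_, rfl⟩
  obtain ⟨Ψ₃, hΨ₃⟩ : ∃ Ψ₃ : Ω × Ω → ℝ, Ψ₃ = fun v => 1 / 2 ^ a *
    Psi (MvPolynomial.pderiv none (Q (zx (x v.1)))) (6 * C₀ / 2 ^ (a + L))
      (rp (2 ^ (a + L)) pos (x v.2)) := ⟨_, rfl⟩
  have L1' : Ex (dbl p lam) (fun v => max 0 (Real.log (Ψ₁ v) -
      Real.log (C * lm * g (zx (x v.1))))) ≤ 2 * D * (a * Real.log 2 + e₁) + C := by
    rw [hΨ₁]; exact L1
  have L3' : Ex (dbl p lam) (fun v => max 0 (Real.log (g (zx (x v.1))) - Real.log (Ψ₃ v))) ≤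
      2 * D * (a * Real.log 2 + e₁) + 2 * D * eT + C * E := by
    rw [hΨ₃]; exact L3
  have k1 := markov_pos hq0 (fun v => Real.log (Ψ₁ v) - Real.log (C * lm * g (zx (x v.1)))) hb
  have k3 := markov_pos hq0 (fun v => Real.log (g (zx (x v.1))) - Real.log (Ψ₃ v)) hb
  have k1' := k1.trans (div_le_div_of_nonneg_right L1' hb.le)
  have k3' := k3.trans (div_le_div_of_nonneg_right L3' hb.le)
  have hsum : (∑ v, (if DepE a L C₀ lm cz Q g (2 * C * Real.exp b) (zx (x v.1))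
      (zx (x v.2)) (rp (2 ^ L) (posS pos L) (x v.2)) then 0 else dbl p lam v)) ≤
      (∑ v, (if b < Real.log (Ψ₁ v) - Real.log (C * lm * g (zx (x v.1))) then dbl p lam v
        else 0)) +
      ∑ v, (if b < Real.log (g (zx (x v.1))) - Real.log (Ψ₃ v) then dbl p lam v else 0) := by
    rw [← Finset.sum_add_distrib]
    refine Finset.sum_le_sum fun v _ => ?_
    have hv0 := hq0 v
    by_cases hv : 0 < dbl p lam v
    swap
    · have h1 : dbl p lam v = 0 := le_antisymm (not_lt.1 hv) hv0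
      rw [h1]
      split_ifs <;> simp
    have hg1 := hg (zx (x v.1))
    by_cases c1 : b < Real.log (Ψ₁ v) - Real.log (C * lm * g (zx (x v.1)))
    · rw [if_pos c1]
      split_ifs <;> linarith
    by_cases c3 : b < Real.log (g (zx (x v.1))) - Real.log (Ψ₃ v)
    · rw [if_pos c3]
      split_ifs <;> linarith
    rw [if_neg c1, if_neg c3, if_pos, add_zero]
    have hp1 : 0 < p v.1 := m1.pos hq0 hv
    have hΨ1 : 0 < Ψ₁ v := by
      rw [hΨ₁]
      exact PsiC_pos hs0.ne' (hQ _).1 (by positivity) _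
    have hΨ3 : 0 < Ψ₃ v := by
      rw [hΨ₃]
      exact mul_pos (by positivity) (Psi_pos _ (hder v.1 hp1) _ (by positivity) _)
    have hexp : 0 < Real.exp b := Real.exp_pos b
    constructor
    · have e1 : PsiC (6 * C₀ / 2 ^ L / lm) (pl2 a cz Q (zx (x v.1)) (zx (x v.2)))
          (6 * C₀ / 2 ^ L) (rp (2 ^ L) (posS pos L) (x v.2)) = Ψ₁ v := by
        rw [hΨ₁]
        exact hF.PsiC_eq hs0.ne' (Q (zx (x v.1))) (6 * C₀) v.2
      rw [e1]
      have h1 : Real.log (Ψ₁ v) ≤ Real.log (Real.exp b * (C * lm * g (zx (x v.1)))) := by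
        rw [Real.log_mul hexp.ne' (by positivity), Real.log_exp]
        push Not at c1
        linarith only [c1]
      have h2 := (Real.log_le_log_iff hΨ1 (by positivity)).1 h1
      have h3 : 0 ≤ Real.exp b * (C * lm * g (zx (x v.1))) := by positivity
      calc Ψ₁ v ≤ Real.exp b * (C * lm * g (zx (x v.1))) := h2
        _ ≤ 2 * (Real.exp b * (C * lm * g (zx (x v.1)))) := by linarith only [hΨ1, h2]
        _ = _ := by ring
    · have e1 : Psi (MvPolynomial.pderiv none (pl2 a cz Q (zx (x v.1)) (zx (x v.2))))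
          (6 * C₀ / 2 ^ L) (rp (2 ^ L) (posS pos L) (x v.2)) = Ψ₃ v := by
        rw [hΨ₃]
        simp only [pl2]
        have f1 := hF.PsiC_eq one_ne_zero (MvPolynomial.pderiv none (Q (zx (x v.1)))) (6 * C₀) v.2
        rw [PsiC_one, PsiC_one] at f1
        have f2 : (0 : ℝ) < 1 / 2 ^ a := by positivity
        rw [pderiv_shf, Psi_C_mul, abs_of_pos f2, f1]
      rw [e1]
      have h1 : Real.log (g (zx (x v.1))) ≤ Real.log (Real.exp b * Ψ₃ v) := by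
        rw [Real.log_mul hexp.ne' hΨ3.ne', Real.log_exp]
        push Not at c3
        linarith only [c3]
      have h2 := (Real.log_le_log_iff hg1 (by positivity)).1 h1
      have h3 : 0 ≤ Real.exp b * Ψ₃ v := by positivity
      calc g (zx (x v.1)) ≤ 1 * (Real.exp b * Ψ₃ v) := by linarith only [h2]
        _ ≤ 2 * C * (Real.exp b * Ψ₃ v) := mul_le_mul_of_nonneg_right (by linarith only [hC1]) h3
        _ = _ := by ring
  refine hsum.trans ((add_le_add k1' k3').trans ?_)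
  rw [← add_div]
  refine div_le_div_of_nonneg_right ?_ hb.le
  have h1 : C ≤ C * E := by nlinarith only [hE1, hC1]
  linarith only [h1]

end Pool.KS3
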