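import Pool.Agent.H77.S6.LC8

/-!
# Full position at the second time, by counting

Two samples of one line in a window; `z` is a function of the point of the first sample. Then the
position of the second sample is as full given `z` as the position of the first one.
-/

set_option autoImplicit false

namespace Pool.KJ

open Finset Real
open Pool.Agent.H49.Ent Pool.Agent.H32.Dense Pool.STK Pool.KA Pool.KSAT Pool.K3 Pool.K2S Pool.KS6

variable {m J : ℕ}

/-- The line, with its side information. -/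
noncomputable def ln (F : Fam m J) (ω : F.Ω) : ((Fin m → ℝ) × (Fin m → ℝ)) × F.ζ := (F.l ω, F.Z ω)

/-- **Full position at the second time.** -/
theorem full_at (F : Fam m J) {w P : ℕ} (hw : w ≤ J) {e : ℝ} (he : F.Tm e) {S : Type}
    (z : F.Ω → S) (hz : Det F.p (fun ω => (F.X P ω, F.W ω)) z) :
    CH F.p (F.X P) (fun ω => (z ω, F.W ω)) - (e + Real.log 5) ≤
      CH (prs F w) (fun v => F.X P v.2) (fun v => (z v.1, F.W v.1, F.W v.2)) := by
  classical
  have hQ := prs_law F w
  have h0 := hQ.nonneg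
  have hp := F.isLaw
  -- the time of the second sample is free given the first one
  have h1 := prs_time F hw he (F.X P) (fun ω => (z ω, F.W ω)) (by
    intro ω ω' _ _ h
    have h1 : F.W ω = F.W ω' := (Prod.ext_iff.mp h).2
    have h2 : F.T ω = F.T ω' := (Prod.ext_iff.mp h1).1
    unfold Fam.T1
    rw [h2])
  have h2 : CH (prs F w) (fun v => F.X P v.1) (fun v => (F.T v.2, (z v.1, F.W v.1))) ≤
      CH (prs F w) (fun v => F.X P v.1) (fun v => (z v.1, F.W v.1, F.W v.2)) := by
    refine CH_mono_cond h0 fun v v' hv hv' h => ?_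
    simp only [Prod.mk.injEq] at h ⊢
    obtain ⟨-, -, -, -, a3, -⟩ := prs_pos hv
    obtain ⟨-, -, -, -, b3, -⟩ := prs_pos hv'
    have h3 : F.Z v.1 = F.Z v'.1 := (Prod.ext_iff.mp h.2.2).2
    exact ⟨h.2.1, h.2.2, Prod.ext h.1 (a3.symm.trans (h3.trans b3))⟩
  -- the line
  obtain ⟨L, hL⟩ : ∃ L : F.Ω × F.Ω → ((Fin m → ℝ) × (Fin m → ℝ)) × F.ζ, L = fun v => ln F v.1 :=
    ⟨_, rfl⟩
  obtain ⟨V, hV⟩ : ∃ V : F.Ω × F.Ω → (ℕ × F.ζ) × (ℕ × F.ζ), V = fun v => (F.W v.1, F.W v.2) :=
    ⟨_, rfl⟩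
  have hX : ∀ ω ω' : F.Ω, ln F ω = ln F ω' → F.W ω = F.W ω' → F.X P ω = F.X P ω' := by
    intro ω ω' h h'
    have h1 : F.l ω = F.l ω' := (Prod.ext_iff.mp h).1
    have h2 : F.T ω = F.T ω' := (Prod.ext_iff.mp h').1
    have hu : F.u ω = F.u ω' := (Prod.ext_iff.mp h1).1
    have hd : F.d ω = F.d ω' := (Prod.ext_iff.mp h1).2
    have hx : F.x ω = F.x ω' := by
      funext i
      unfold Fam.x Fam.t
      rw [hu, hd, h2]
    unfold Fam.X
    rw [hx]
  have hln : ∀ v : F.Ω × F.Ω, 0 < prs F w v → ln F v.1 = ln F v.2 := by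
    intro v hv
    obtain ⟨-, -, a1, a2, a3, -⟩ := prs_pos hv
    unfold ln Fam.l
    rw [a1, a2, a3]
  -- exchange
  have h3 : CH (prs F w) L (fun v => (F.X P v.2, V v)) =
      CH (prs F w) L (fun v => (F.X P v.1, V v)) := by
    have h4 := (prs_swap F w).CH L (fun v => (F.X P v.1, V v))
    rw [← h4]
    refine CH_congr h0 ?_ ?_ ?_ ?_
    · intro v v' hv hv' h
      have h5 : L v = L v' := (Prod.ext_iff.mp h).1
      rw [hL] at h5 ⊢
      simp only [Prod.fst_swap] at h5 ⊢
      rw [← hln v hv, ← hln v' hv', h5]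
    · intro v v' hv hv' h
      have h5 := (Prod.ext_iff.mp h).1
      rw [hL] at h5 ⊢
      simp only [Prod.fst_swap] at h5 ⊢
      rw [hln v hv, hln v' hv', h5]
    · intro v v' hv hv' h
      rw [hV] at h ⊢
      simp only [Prod.mk.injEq, Prod.fst_swap, Prod.snd_swap] at h ⊢
      exact ⟨h.1, h.2.2, h.2.1⟩
    · intro v v' hv hv' h
      rw [hV] at h ⊢
      simp only [Prod.mk.injEq, Prod.fst_swap, Prod.snd_swap] at h ⊢
      exact ⟨h.1, h.2.2, h.2.1⟩
  -- chain rules
  have c1 := CH_le_add h0 L (fun v => F.X P v.2) (fun v => (z v.1, V v))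
  have c2 : CH (prs F w) L (fun v => (F.X P v.2, (z v.1, V v))) ≤
      CH (prs F w) L (fun v => (F.X P v.2, V v)) := by
    refine CH_mono_cond h0 fun v v' _ _ h => ?_
    simp only [Prod.mk.injEq] at h ⊢
    tauto
  have c3 := CH_chain h0 L (fun v => F.X P v.1) (fun v => (z v.1, V v))
  have c4 : CH (prs F w) (fun v => (L v, F.X P v.1)) (fun v => (z v.1, V v)) =
      CH (prs F w) L (fun v => (z v.1, V v)) := by
    refine CH_congr h0 ?_ ?_ (fun _ _ _ _ h => h) (fun _ _ _ _ h => h)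
    · intro v v' hv hv' h
      simp only [Prod.mk.injEq] at h
      exact h.1.1
    · intro v v' hv hv' h
      have h5 : L v = L v' := (Prod.ext_iff.mp h).1
      have h6 : (z v.1, V v) = (z v'.1, V v') := (Prod.ext_iff.mp h).2
      have h7 : V v = V v' := (Prod.ext_iff.mp h6).2
      rw [hV] at h7
      have h8 : F.W v.1 = F.W v'.1 := (Prod.ext_iff.mp h7).1
      refine Prod.ext h5 ?_
      rw [hL] at h5
      exact hX _ _ h5 h8
  have c5 : CH (prs F w) L (fun v => (F.X P v.1, V v)) ≤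
      CH (prs F w) L (fun v => (F.X P v.1, (z v.1, V v))) := by
    refine CH_mono_cond h0 fun v v' hv hv' h => ?_
    simp only [Prod.mk.injEq] at h ⊢
    obtain ⟨h5, h6⟩ := h
    obtain ⟨a1, -⟩ := prs_pos hv
    obtain ⟨b1, -⟩ := prs_pos hv'
    have h7 : F.W v.1 = F.W v'.1 := by
      rw [hV] at h6
      exact (Prod.ext_iff.mp h6).1
    exact ⟨h5, hz v.1 v'.1 a1 b1 (Prod.ext h5 h7), h6⟩
  have c6 : CH (prs F w) (fun v => F.X P v.1) (fun v => (z v.1, F.W v.1, F.W v.2)) =
      CH (prs F w) (fun v => F.X P v.1) (fun v => (z v.1, V v)) := by rw [hV]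
  have c7 : CH (prs F w) (fun v => F.X P v.2) (fun v => (z v.1, F.W v.1, F.W v.2)) =
      CH (prs F w) (fun v => F.X P v.2) (fun v => (z v.1, V v)) := by rw [hV]
  rw [c7]
  rw [c6] at h2
  linarith

end Pool.KJ
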